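import Pool.Agent.Run7.h991.DP.Crit
import Pool.Agent.Results.MP_fcb70f_an.IsolatedParameters

set_option autoImplicit false

/-! # Local connectivity of the Multibrot sets is decided at the good deep parameters (helper991) -/

open Set Metric Filter Topology Complex MeasureTheory
open scoped ENNReal

namespace Run7.h991.DP

open Pool.Agent.H637R4.PO
open Pool.Agent.R240.Loc (CIK)
open N62a1eb23 Pool.Agent.H713R2
open Pool.Agent.Results.MP_fcb70f_an.IsolatedParameters (Good LocallyConnectedAt ae_good)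

theorem toExt {K : Set ℂ} {ψ : ℂ → ℂ} (h : IsExteriorMap K ψ) : Ext K ψ :=
  ⟨h.diff, h.inj, h.image, h.infinity⟩

theorem mb_late {d : ℕ} (hd : 2 ≤ d) {ψ : ℂ → ℂ} (hψ : IsExteriorMap (multibrotSet d) ψ)
    {θ₀ R : ℝ} {p : ℂ} (hlate : Late ψ θ₀ p R) {H : ℝ → ℝ} (hH : Gauge H) :
    ∀ᵐ u : ℝ, 0 < u → u < R → ∃ c ∈ frontier (multibrotSet d), dist c p = u ∧
      Good d Pool.Agent.R240.Res.KR ψ c ∧ Deep (multibrotSet d) ψ H θ₀ c := by
  have hK := Pool.Agent.H712R2.isCompact_multibrot hd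
  filter_upwards [deep_of_late (toExt hψ) hlate hH, ae_good hd hψ p] with u h1 h2 h3 h4
  obtain ⟨c, hc, hcu, hD⟩ := h1 h3 h4
  have hf : c ∈ frontier (multibrotSet d) :=
    ⟨subset_closure hc, fun hi => deep_not_cik (toExt hψ) hK hD (Pool.Agent.R240.Slim.cik_interior hi)⟩
  exact ⟨c, hf, hcu, h2 c hf hcu, hD⟩

theorem mb_main {d : ℕ} (hd : 2 ≤ d) {ψ : ℂ → ℂ} (hψ : IsExteriorMap (multibrotSet d) ψ) :
    (∀ p : ℂ, ¬ LocallyConnectedAt (multibrotSet d) p → ∃ θ₀ : ℝ, p ∈ Impression ψ θ₀ ∧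
      ∃ ε : ℝ, 0 < ε ∧ ∀ H : ℝ → ℝ, Gauge H → ∀ᵐ u : ℝ, 0 < u → u < ε →
        ∃ c ∈ frontier (multibrotSet d), dist c p = u ∧ Good d Pool.Agent.R240.Res.KR ψ c ∧
          Deep (multibrotSet d) ψ H θ₀ c) ∧
    ∀ H : ℝ → ℝ, Gauge H →
      (LocallyConnectedSpace (multibrotSet d) ↔ ∀ θ₀ : ℝ, ∀ c ∈ frontier (multibrotSet d),
        Good d Pool.Agent.R240.Res.KR ψ c → ¬ Deep (multibrotSet d) ψ H θ₀ c) ∧
      (∀ θ₀ : ℝ, (Impression ψ θ₀).Subsingleton ↔ ∀ c ∈ frontier (multibrotSet d),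
        Good d Pool.Agent.R240.Res.KR ψ c → ¬ Deep (multibrotSet d) ψ H θ₀ c) ∧
      ∀ (θ₀ : ℝ) (c : ℂ), Deep (multibrotSet d) ψ H θ₀ c →
        c ∈ Impression ψ θ₀ ∧ ¬ LocallyConnectedAt (multibrotSet d) c := by
  have hK := Pool.Agent.H712R2.isCompact_multibrot hd
  have hE := toExt hψ
  have hP : ∀ p : ℂ, ¬ LocallyConnectedAt (multibrotSet d) p → ∃ θ₀ : ℝ, p ∈ Impression ψ θ₀ ∧
      ∃ ε : ℝ, 0 < ε ∧ ∀ H : ℝ → ℝ, Gauge H → ∀ᵐ u : ℝ, 0 < u → u < ε →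
        ∃ c ∈ frontier (multibrotSet d), dist c p = u ∧ Good d Pool.Agent.R240.Res.KR ψ c ∧
          Deep (multibrotSet d) ψ H θ₀ c := by
    intro p hp
    obtain ⟨R, hR, θ₀, hlate⟩ := late_of_not_cik hE hK hp
    exact ⟨θ₀, hlate.mem_imp, R, hR, fun H hH => mb_late hd hψ hlate hH⟩
  refine ⟨hP, ?_⟩
  intro H hH
  refine ⟨⟨?_, ?_⟩, ?_, ?_⟩
  · intro h θ₀ c hc _ hD
    exact deep_not_cik hE hK hD (Pool.Agent.R240.Loc.lcs_iff.1 h c (hK.isClosed.frontier_subset hc))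
  · intro h
    refine Pool.Agent.R240.Loc.lcs_iff.2 fun p _ => ?_
    by_contra hcon
    obtain ⟨θ₀, _, ε, hε, h1⟩ := hP p hcon
    obtain ⟨u, _, _, c, hc, _, hg, hD⟩ := exists_circle hε (h1 H hH)
    exact h θ₀ c hc hg hD
  · intro θ₀
    constructor
    · intro h c _ _ hD
      exact deep_not_subsingleton hE hK hD h
    · intro h
      by_contra hcon
      obtain ⟨b, R, hR, hlate⟩ := late_of_imp hE hK hcon
      obtain ⟨u, _, _, c, hc, _, hg, hD⟩ := exists_circle hR (mb_late hd hψ hlate hH)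
      exact h c hc hg hD
  · intro θ₀ c hD
    exact ⟨deep_mem_imp hD, deep_not_cik hE hK hD⟩

end Run7.h991.DP
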