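import Pool.Agent.Run7.h991.DP.Ext

set_option autoImplicit false

/-! # Short crosscuts (helper991) -/

open Set Metric Filter Topology Complex MeasureTheory
open scoped ENNReal

namespace Run7.h991.DP

open Pool.Agent.H637R4.PO

variable {K : Set ℂ} {ψ : ℂ → ℂ}

theorem isOpen_image (hψ : Ext K ψ) {U : Set ℂ} (hU : IsOpen U) (hs : U ⊆ {z | 1 < ‖z‖}) :
    IsOpen (ψ '' U) := by
  rw [isOpen_iff_mem_nhds]
  rintro _ ⟨w, hw, rfl⟩
  have h1 : 1 < ‖w‖ := hs hw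
  have hder : deriv ψ w ≠ 0 := by
    obtain ⟨ρ, hρ, hb⟩ := Metric.isOpen_iff.1 isOpen_Ex w h1
    exact (t_KB ψ w ρ hρ (hψ.diff.mono hb) (hψ.inj.mono hb)).1
  have han : AnalyticAt ℂ ψ w := hψ.diff.analyticAt (isOpen_Ex.mem_nhds h1)
  rw [← han.hasStrictDerivAt.map_nhds_eq hder]
  exact image_mem_map (hU.mem_nhds hw)

theorem preconnected_exterior {R : ℝ} (hR : 0 ≤ R) : IsPreconnected {z : ℂ | R < ‖z‖} := by
  have h1 : {z : ℂ | R < ‖z‖} = (fun q : ℝ × ℝ => (q.1 : ℂ) * exp ((q.2 : ℂ) * I)) ''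
      (Ioi R ×ˢ univ) := by
    ext z
    constructor
    · intro hz
      have hz' : R < ‖z‖ := hz
      exact ⟨(‖z‖, arg z), ⟨hz', mem_univ _⟩, Complex.norm_mul_exp_arg_mul_I z⟩
    · rintro ⟨⟨r, t⟩, ⟨hr, _⟩, rfl⟩
      have hr' : R < r := hr
      show R < ‖(r : ℂ) * exp ((t : ℂ) * I)‖
      rw [norm_mul, Complex.norm_exp_ofReal_mul_I, mul_one, Complex.norm_real, Real.norm_eq_abs,
        abs_of_pos (by linarith)]
      exact hr'
  rw [h1]
  apply (isPreconnected_Ioi.prod isPreconnected_univ).image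
  apply Continuous.continuousOn
  fun_prop

/-- the exterior map is bounded on bounded sets -/
theorem bounded_annulus (hψ : Ext K ψ) (hK : IsCompact K) {a : ℝ} (ha : 1 < a) :
    ∃ R : ℝ, ∀ w : ℂ, 1 < ‖w‖ → ‖w‖ ≤ a → ‖ψ w‖ ≤ R := by
  have hsph : sphere (0 : ℂ) a ⊆ {z | 1 < ‖z‖} := by
    intro w hw
    rw [mem_sphere_zero_iff_norm] at hw
    show 1 < ‖w‖
    linarith
  have hΓ : IsCompact (ψ '' sphere 0 a) :=
    (isCompact_sphere _ _).image_of_continuousOn (hψ.diff.continuousOn.mono hsph)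
  obtain ⟨R₀, hR₀⟩ := (hK.union hΓ).isBounded.subset_closedBall (0 : ℂ)
  obtain ⟨R, hR⟩ : ∃ R, R = max R₀ 0 := ⟨_, rfl⟩
  have hRR : R₀ ≤ R := by rw [hR]; exact le_max_left _ _
  have hR0 : 0 ≤ R := by rw [hR]; exact le_max_right _ _
  refine ⟨R, ?_⟩
  have hU1 : IsOpen (ψ '' {w | 1 < ‖w‖ ∧ ‖w‖ < a}) := by
    apply isOpen_image hψ _ fun w hw => hw.1
    exact (isOpen_lt continuous_const continuous_norm).inter
      (isOpen_lt continuous_norm continuous_const)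
  have hU2 : IsOpen (ψ '' {w | a < ‖w‖}) := by
    apply isOpen_image hψ (isOpen_lt continuous_const continuous_norm)
    intro w hw
    have : a < ‖w‖ := hw
    show 1 < ‖w‖
    linarith
  have hcov : {z : ℂ | R < ‖z‖} ⊆ ψ '' {w | 1 < ‖w‖ ∧ ‖w‖ < a} ∪ ψ '' {w | a < ‖w‖} := by
    intro z hz
    have hz' : R < ‖z‖ := hz
    have h1 : z ∉ K ∪ ψ '' sphere 0 a := by
      intro h
      have := hR₀ h
      rw [mem_closedBall_zero_iff] at this
      linarith
    have h2 : z ∈ ψ '' {z | 1 < ‖z‖} := by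
      rw [hψ.image]
      exact fun h => h1 (Or.inl h)
    obtain ⟨w, hw, rfl⟩ := h2
    rcases lt_trichotomy ‖w‖ a with h | h | h
    · exact Or.inl ⟨w, ⟨hw, h⟩, rfl⟩
    · exact absurd (Or.inr ⟨w, mem_sphere_zero_iff_norm.2 h, rfl⟩) h1
    · exact Or.inr ⟨w, h, rfl⟩
  have hdis : Disjoint (ψ '' {w | 1 < ‖w‖ ∧ ‖w‖ < a}) (ψ '' {w | a < ‖w‖}) := by
    rw [disjoint_left]
    rintro _ ⟨w, hw, rfl⟩ ⟨w', hw', he⟩
    have h1 : a < ‖w'‖ := hw'
    have h2 : w' = w := hψ.inj (show 1 < ‖w'‖ by linarith) hw.1 he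
    rw [h2] at h1
    linarith [hw.2]
  have hne : ({z : ℂ | R < ‖z‖} ∩ ψ '' {w | a < ‖w‖}).Nonempty := by
    have h1 : ∀ᶠ z in Bornology.cobounded ℂ, (1 / 2 : ℝ) < ‖ψ z / z‖ := by
      have h2 := (continuous_norm.tendsto (1 : ℂ)).comp hψ.infinity
      have h3 : (1 / 2 : ℝ) < ‖(1 : ℂ)‖ := by rw [norm_one]; norm_num
      exact h2.eventually (lt_mem_nhds h3)
    have h2 : ∀ᶠ z : ℂ in Bornology.cobounded ℂ, max a (2 * R) < ‖z‖ :=
      tendsto_norm_cobounded_atTop.eventually_gt_atTop _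
    obtain ⟨w, hw1, hw2⟩ := (h1.and h2).exists
    have hwa := (le_max_left _ _).trans_lt hw2
    have hwR := (le_max_right _ _).trans_lt hw2
    have hw0 : 0 < ‖w‖ := by linarith
    refine ⟨ψ w, ?_, w, hwa, rfl⟩
    rw [norm_div, lt_div_iff₀ hw0] at hw1
    show R < ‖ψ w‖
    linarith
  have hsub : {z : ℂ | R < ‖z‖} ⊆ ψ '' {w | a < ‖w‖} := by
    intro z hz
    rcases hcov hz with h | h
    · exfalso
      obtain ⟨y, hy1, hy2⟩ := preconnected_exterior hR0 _ _ hU1 hU2 hcov ⟨z, hz, h⟩ hne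
      exact disjoint_left.1 hdis hy2.1 hy2.2
    · exact h
  intro w hw1 hw2
  by_contra hcon
  push Not at hcon
  obtain ⟨w', hw', he⟩ := hsub hcon
  have h1 : a < ‖w'‖ := hw'
  have h2 : w' = w := hψ.inj (show 1 < ‖w'‖ by linarith) hw1 he
  rw [h2] at h1
  linarith

/-- the area of the image of a thin annulus is small -/
theorem area_small (hψ : Ext K ψ) (hK : IsCompact K) {ε : ℝ≥0∞} (hε : 0 < ε) :
    ∃ σ : ℝ, 0 < σ ∧ σ ≤ 1 ∧ volume (ψ '' {w | 1 < ‖w‖ ∧ ‖w‖ < Real.exp σ}) ≤ ε := by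
  obtain ⟨A, hA⟩ : ∃ A : ℕ → Set ℂ, A = fun n : ℕ => ψ '' {w | 1 < ‖w‖ ∧ ‖w‖ <
    Real.exp (1 / ((n : ℝ) + 1))} := ⟨_, rfl⟩
  have h1 : Tendsto (fun n => volume (A n)) atTop (𝓝 (volume (⋂ n, A n))) := by
    apply tendsto_measure_iInter_atTop
    · intro n
      rw [hA]
      apply IsOpen.nullMeasurableSet
      apply isOpen_image hψ _ fun w hw => hw.1
      exact (isOpen_lt continuous_const continuous_norm).inter
        (isOpen_lt continuous_norm continuous_const)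
    · intro m n h
      rw [hA]
      apply image_mono
      intro w hw
      refine ⟨hw.1, hw.2.trans_le ?_⟩
      apply Real.exp_le_exp.2
      apply one_div_le_one_div_of_le (by positivity)
      have : (m : ℝ) ≤ n := by exact_mod_cast h
      linarith
    · refine ⟨0, ?_⟩
      obtain ⟨R, hR⟩ := bounded_annulus hψ hK (a := Real.exp 1) (Real.one_lt_exp_iff.2 one_pos)
      have h2 : A 0 ⊆ closedBall 0 R := by
        rw [hA]
        rintro _ ⟨w, hw, rfl⟩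
        rw [mem_closedBall_zero_iff]
        apply hR w hw.1
        have := hw.2
        simp only [Nat.cast_zero, zero_add, div_one] at this
        exact this.le
      exact ne_top_of_le_ne_top (isCompact_closedBall (0 : ℂ) R).measure_ne_top (measure_mono h2)
  have h2 : (⋂ n, A n) = ∅ := by
    rw [eq_empty_iff_forall_notMem]
    intro z hz
    rw [hA] at hz
    have hz' := mem_iInter.1 hz
    obtain ⟨w, hw, hwz⟩ := hz' 0
    have h3 : ∀ n : ℕ, ‖w‖ < Real.exp (1 / ((n : ℝ) + 1)) := by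
      intro n
      obtain ⟨v, hv, hvz⟩ := hz' n
      have : v = w := hψ.inj hv.1 hw.1 (by rw [hvz, hwz])
      rw [← this]
      exact hv.2
    have h4 : Tendsto (fun n : ℕ => Real.exp (1 / ((n : ℝ) + 1))) atTop (𝓝 (Real.exp 0)) :=
      (Real.continuous_exp.tendsto 0).comp tendsto_one_div_add_atTop_nhds_zero_nat
    rw [Real.exp_zero] at h4
    have h5 : ‖w‖ ≤ 1 := ge_of_tendsto h4 (Eventually.of_forall fun n => (h3 n).le)
    linarith [hw.1]
  rw [h2, measure_empty] at h1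
  obtain ⟨n, hn⟩ := (h1.eventually (gt_mem_nhds hε)).exists
  refine ⟨1 / ((n : ℝ) + 1), by positivity, ?_, ?_⟩
  · rw [div_le_one (by positivity)]
    linarith [Nat.cast_nonneg (α := ℝ) n]
  · rw [hA] at hn
    exact hn.le

theorem det_mul (c : ℂ) :
    ((ContinuousLinearMap.toSpanSingleton ℂ c).restrictScalars ℝ).det = ‖c‖ ^ 2 := by
  have : (((ContinuousLinearMap.toSpanSingleton ℂ c).restrictScalars ℝ : ℂ →L[ℝ] ℂ) :
      ℂ →ₗ[ℝ] ℂ) = ((LinearMap.toSpanSingleton ℂ ℂ c).restrictScalars ℝ) := by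
    (ext; simp)
  rw [ContinuousLinearMap.det, this, LinearMap.det_restrictScalars]
  simp [Algebra.norm_complex_apply, Complex.normSq_eq_norm_sq]

/-- the rectangle `(0, 2 s) × (θ - s, θ + s)` -/
def Rect (s θ : ℝ) : Set ℂ := {ζ | ζ.re ∈ Ioo 0 (2 * s) ∧ ζ.im ∈ Ioo (θ - s) (θ + s)}

theorem isOpen_Rect (s θ : ℝ) : IsOpen (Rect s θ) :=
  (isOpen_Ioo.preimage Complex.continuous_re).inter (isOpen_Ioo.preimage Complex.continuous_im)

theorem area_rect (hψ : Ext K ψ) (hK : IsCompact K) {κ : ℝ} (hκ : 0 < κ) :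
    ∃ σ : ℝ, 0 < σ ∧ σ ≤ 1 / 2 ∧ ∀ s θ : ℝ, 0 < s → s < σ →
      ∫⁻ ζ in Rect s θ, ENNReal.ofReal (‖deriv (F ψ) ζ‖ ^ 2) ≤ ENNReal.ofReal (κ ^ 2) := by
  obtain ⟨σ, hσ, hσ1, h1⟩ := area_small hψ hK (ε := ENNReal.ofReal (κ ^ 2))
    (ENNReal.ofReal_pos.2 (by positivity))
  refine ⟨σ / 2, by positivity, by linarith, ?_⟩
  intro s θ hs0 hs
  have hHP : Rect s θ ⊆ HP := fun ζ hζ => hζ.1.1
  have h2 := lintegral_abs_det_fderiv_eq_addHaar_image (volume : Measure ℂ)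
    (isOpen_Rect s θ).measurableSet (f := F ψ)
    (f' := fun ζ => (ContinuousLinearMap.toSpanSingleton ℂ (deriv (F ψ) ζ)).restrictScalars ℝ)
    (fun ζ hζ => ((F_diffAt hψ (hHP hζ)).hasDerivAt.hasFDerivAt.restrictScalars
      ℝ).hasFDerivWithinAt) (by
      intro ζ hζ ζ' hζ' he
      refine F_inj_strip hψ (hHP hζ) (hHP hζ') ?_ he
      have := Real.pi_gt_three
      rw [abs_lt]
      constructor <;> linarith [hζ.2.1, hζ.2.2, hζ'.2.1, hζ'.2.2])
  have h3 : ∀ ζ, ENNReal.ofReal |((ContinuousLinearMap.toSpanSingleton ℂ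
      (deriv (F ψ) ζ)).restrictScalars ℝ).det| = ENNReal.ofReal (‖deriv (F ψ) ζ‖ ^ 2) := by
    intro ζ
    rw [det_mul, abs_of_nonneg (by positivity)]
  simp only [h3] at h2
  rw [h2]
  refine le_trans (measure_mono ?_) h1
  rintro _ ⟨ζ, hζ, rfl⟩
  refine ⟨exp ζ, ⟨one_lt_exp hζ.1.1, ?_⟩, rfl⟩
  rw [norm_exp]
  apply Real.exp_lt_exp.2
  linarith [hζ.1.2]

/-- the same integral, of the first power, in real coordinates -/
theorem first_power (hψ : Ext K ψ) (hK : IsCompact K) {κ : ℝ} (hκ : 0 < κ) :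
    ∃ σ : ℝ, 0 < σ ∧ σ ≤ 1 / 2 ∧ ∀ s θ : ℝ, 0 < s → s < σ →
      ∫⁻ q in Ioo 0 (2 * s) ×ˢ Ioo (θ - s) (θ + s), ENNReal.ofReal ‖deriv (F ψ) (pt q.1 q.2)‖ ≤
        ENNReal.ofReal (5 * κ * s) := by
  obtain ⟨σ, hσ, hσ1, h1⟩ := area_rect hψ hK hκ
  refine ⟨σ, hσ, hσ1, ?_⟩
  intro s θ hs0 hs
  have h2 := h1 s θ hs0 hs
  have hmp := (Complex.volume_preserving_equiv_real_prod).symm
  have h3 := hmp.setLIntegral_comp_preimage_emb
    (Complex.measurableEquivRealProd.symm.measurableEmbedding)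
    (fun ζ => ENNReal.ofReal (‖deriv (F ψ) ζ‖ ^ 2)) (Rect s θ)
  have hpre : (Complex.measurableEquivRealProd.symm) ⁻¹' (Rect s θ) =
      Ioo 0 (2 * s) ×ˢ Ioo (θ - s) (θ + s) := by
    ext q
    rfl
  have hpt : ∀ q : ℝ × ℝ, Complex.measurableEquivRealProd.symm q = pt q.1 q.2 := by
    intro q
    apply Complex.ext
    · simp [Complex.measurableEquivRealProd_symm_apply]
    · simp [Complex.measurableEquivRealProd_symm_apply]
  rw [hpre] at h3
  simp only [hpt] at h3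
  rw [← h3] at h2
  have hpw : ∀ q : ℝ × ℝ, ENNReal.ofReal ‖deriv (F ψ) (pt q.1 q.2)‖ ≤
      ENNReal.ofReal (s / κ) * ENNReal.ofReal (‖deriv (F ψ) (pt q.1 q.2)‖ ^ 2) +
        ENNReal.ofReal (κ / s) := by
    intro q
    rw [← ENNReal.ofReal_mul (by positivity), ← ENNReal.ofReal_add (by positivity) (by positivity)]
    apply ENNReal.ofReal_le_ofReal
    have hx := norm_nonneg (deriv (F ψ) (pt q.1 q.2))
    generalize ‖deriv (F ψ) (pt q.1 q.2)‖ = x at hx ⊢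
    rcases le_total x (κ / s) with h | h
    · have : 0 ≤ s / κ * x ^ 2 := by positivity
      linarith
    · have h5 : 1 ≤ s / κ * x := by
        calc (1 : ℝ) = s / κ * (κ / s) := by field_simp
          _ ≤ _ := by gcongr
      have h6 : x ≤ s / κ * x ^ 2 := by
        calc x = 1 * x := (one_mul x).symm
          _ ≤ s / κ * x * x := by gcongr
          _ = _ := by ring
      have : 0 ≤ κ / s := by positivity
      linarith
  calc ∫⁻ q in Ioo 0 (2 * s) ×ˢ Ioo (θ - s) (θ + s), ENNReal.ofReal ‖deriv (F ψ) (pt q.1 q.2)‖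
      ≤ ∫⁻ q in Ioo 0 (2 * s) ×ˢ Ioo (θ - s) (θ + s),
          (ENNReal.ofReal (s / κ) * ENNReal.ofReal (‖deriv (F ψ) (pt q.1 q.2)‖ ^ 2) +
            ENNReal.ofReal (κ / s)) := lintegral_mono hpw
    _ = ENNReal.ofReal (s / κ) * (∫⁻ q in Ioo 0 (2 * s) ×ˢ Ioo (θ - s) (θ + s),
          ENNReal.ofReal (‖deriv (F ψ) (pt q.1 q.2)‖ ^ 2)) +
        ENNReal.ofReal (κ / s) * volume (Ioo (0 : ℝ) (2 * s) ×ˢ Ioo (θ - s) (θ + s)) := by
          rw [lintegral_add_right _ measurable_const, lintegral_const_mul' _ _ ENNReal.ofReal_ne_top,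
            setLIntegral_const]
    _ ≤ ENNReal.ofReal (s / κ) * ENNReal.ofReal (κ ^ 2) +
        ENNReal.ofReal (κ / s) * ENNReal.ofReal (4 * s ^ 2) := by
          gcongr
          rw [Measure.volume_eq_prod, Measure.prod_prod, Real.volume_Ioo, Real.volume_Ioo,
            ← ENNReal.ofReal_mul (by linarith)]
          apply ENNReal.ofReal_le_ofReal
          nlinarith
    _ = ENNReal.ofReal (5 * κ * s) := by
          rw [← ENNReal.ofReal_mul (by positivity), ← ENNReal.ofReal_mul (by positivity),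
            ← ENNReal.ofReal_add (by positivity) (by positivity)]
          congr 1
          field_simp
          ring

/-- a bound for the length bounds the distances -/
theorem len {f f' : ℝ → ℂ} {a b C : ℝ} (hC : 0 ≤ C) (hd : ∀ x ∈ Ioo a b, HasDerivAt f (f' x) x)
    (hc : ContinuousOn f' (Ioo a b))
    (hI : ∫⁻ x in Ioo a b, ENNReal.ofReal ‖f' x‖ ≤ ENNReal.ofReal C) :
    ∀ x ∈ Ioo a b, ∀ y ∈ Ioo a b, ‖f x - f y‖ ≤ C := by
  have key : ∀ x ∈ Ioo a b, ∀ y ∈ Ioo a b, x ≤ y → ‖f y - f x‖ ≤ C := by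
    intro x hx y hy hxy
    have hsub : Icc x y ⊆ Ioo a b := fun z hz => ⟨hx.1.trans_le hz.1, hz.2.trans_lt hy.2⟩
    have hcu : ContinuousOn f' (uIcc x y) := by
      rw [uIcc_of_le hxy]; exact hc.mono hsub
    have h1 := intervalIntegral.integral_eq_sub_of_hasDerivAt (f := f) (f' := f') (a := x) (b := y)
      (fun z hz => hd z (hsub (by rwa [uIcc_of_le hxy] at hz))) hcu.intervalIntegrable
    rw [← h1]
    refine (intervalIntegral.norm_integral_le_integral_norm hxy).trans ?_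
    rw [intervalIntegral.integral_of_le hxy]
    rw [integral_eq_lintegral_of_nonneg_ae (Eventually.of_forall fun z => norm_nonneg _)]
    · apply ENNReal.toReal_le_of_le_ofReal hC
      refine le_trans (lintegral_mono_set ?_) hI
      exact fun z hz => ⟨hx.1.trans hz.1, hz.2.trans_lt hy.2⟩
    · have h2 : IntegrableOn f' (Ioc x y) volume := by
        have h3 : IntervalIntegrable f' volume x y := hcu.intervalIntegrable
        rwa [intervalIntegrable_iff_integrableOn_Ioc_of_le hxy] at h3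
      exact h2.aestronglyMeasurable.norm
  intro x hx y hy
  rcases le_total x y with h | h
  · rw [norm_sub_rev]; exact key x hx y hy h
  · exact key y hy x hx h

/-- choice of a short slice -/
theorem slice {g : ℝ → ℝ≥0∞} {a b C D : ℝ} (hab : a < b) (hC : 0 ≤ C) (hCD : C < D * (b - a))
    (h : ∫⁻ x in Ioo a b, g x ≤ ENNReal.ofReal C) : ∃ x ∈ Ioo a b, g x ≤ ENNReal.ofReal D := by
  by_contra hcon
  push Not at hcon
  have h1 : ENNReal.ofReal D * volume (Ioo a b) ≤ ∫⁻ x in Ioo a b, g x := by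
    rw [← setLIntegral_const]
    exact setLIntegral_mono' measurableSet_Ioo fun x hx => (hcon x hx).le
  rw [Real.volume_Ioo] at h1
  have hD : 0 ≤ D := by
    by_contra hD
    push Not at hD
    nlinarith
  rw [← ENNReal.ofReal_mul hD] at h1
  have h2 := h1.trans h
  rw [ENNReal.ofReal_le_ofReal_iff hC] at h2
  linarith

/-- **Short crosscuts.** -/
theorem crosscut (hψ : Ext K ψ) (hK : IsCompact K) {κ : ℝ} (hκ : 0 < κ) :
    ∃ σ : ℝ, 0 < σ ∧ σ ≤ 1 / 2 ∧ ∀ s θ : ℝ, 0 < s → s < σ → ∃ t ∈ Ioo s (2 * s),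
      ∃ y₁ ∈ Ioo (θ - s) θ, ∃ y₂ ∈ Ioo θ (θ + s),
        (∀ y ∈ Icc y₁ y₂, ‖F ψ (pt t y) - F ψ (pt t θ)‖ ≤ κ) ∧
        (∀ x ∈ Ioc 0 t, ‖F ψ (pt x y₁) - F ψ (pt t y₁)‖ ≤ κ) ∧
        (∀ x ∈ Ioc 0 t, ‖F ψ (pt x y₂) - F ψ (pt t y₂)‖ ≤ κ) := by
  obtain ⟨σ, hσ, hσ1, h1⟩ := first_power hψ hK (κ := κ / 6) (by positivity)
  refine ⟨σ, hσ, hσ1, ?_⟩
  intro s θ hs0 hs
  have h2 := h1 s θ hs0 hs
  have hcF' : ContinuousOn (deriv (F ψ)) HP := ((F_diffOn hψ).deriv isOpen_HP).continuousOn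
  have hcpt : Continuous fun q : ℝ × ℝ => pt q.1 q.2 := by unfold pt; fun_prop
  have hcq : ContinuousOn (fun q : ℝ × ℝ => deriv (F ψ) (pt q.1 q.2))
      (Ioo 0 (2 * s) ×ˢ Ioo (θ - s) (θ + s)) := by
    refine hcF'.comp hcpt.continuousOn ?_
    intro q hq
    show 0 < (pt q.1 q.2).re
    rw [pt_re]
    exact hq.1.1
  have hm : AEMeasurable (fun q : ℝ × ℝ => ENNReal.ofReal ‖deriv (F ψ) (pt q.1 q.2)‖)
      (((volume : Measure ℝ).restrict (Ioo 0 (2 * s))).prod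
        ((volume : Measure ℝ).restrict (Ioo (θ - s) (θ + s)))) := by
    rw [Measure.prod_restrict]
    apply ENNReal.measurable_ofReal.comp_aemeasurable
    exact (hcq.norm.aemeasurable (measurableSet_Ioo.prod measurableSet_Ioo))
  rw [Measure.volume_eq_prod, ← Measure.prod_restrict] at h2
  have hx := h2
  rw [lintegral_prod _ hm] at hx
  have hy := h2
  rw [lintegral_prod_symm _ hm] at hy
  simp only at hx hy
  -- the level
  obtain ⟨t, ht, ht2⟩ := slice (a := s) (b := 2 * s) (C := 5 * (κ / 6) * s) (D := κ)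
    (by linarith) (by positivity) (by nlinarith) ((lintegral_mono_set (show Ioo s (2 * s) ⊆
      Ioo 0 (2 * s) from fun x hx => ⟨hs0.trans hx.1, hx.2⟩)).trans hx)
  obtain ⟨y₁, hy₁, hy₁2⟩ := slice (a := θ - s) (b := θ) (C := 5 * (κ / 6) * s) (D := κ)
    (by linarith) (by positivity) (by nlinarith) ((lintegral_mono_set (show Ioo (θ - s) θ ⊆
      Ioo (θ - s) (θ + s) from fun x hx => ⟨hx.1, by linarith [hx.2]⟩)).trans hy)
  obtain ⟨y₂, hy₂, hy₂2⟩ := slice (a := θ) (b := θ + s) (C := 5 * (κ / 6) * s) (D := κ)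
    (by linarith) (by positivity) (by nlinarith) ((lintegral_mono_set (show Ioo θ (θ + s) ⊆
      Ioo (θ - s) (θ + s) from fun x hx => ⟨by linarith [hx.1], hx.2⟩)).trans hy)
  have ht0 : 0 < t := hs0.trans ht.1
  have hray : ∀ y, ∫⁻ x in Ioo 0 (2 * s), ENNReal.ofReal ‖deriv (F ψ) (pt x y)‖ ≤
      ENNReal.ofReal κ → ∀ x ∈ Ioc 0 t, ‖F ψ (pt x y) - F ψ (pt t y)‖ ≤ κ := by
    intro y hy x hx
    refine len hκ.le (f := fun x => F ψ (pt x y)) (f' := fun x => deriv (F ψ) (pt x y))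
      (a := 0) (b := 2 * s) (fun x hx => hasDerivAt_ray hψ hx.1) ?_ hy x
      ⟨hx.1, hx.2.trans_lt ht.2⟩ t ⟨ht0, ht.2⟩
    refine hcF'.comp (Continuous.continuousOn (by unfold pt; fun_prop)) ?_
    intro x hx
    show 0 < (pt x y).re
    rw [pt_re]
    exact hx.1
  refine ⟨t, ht, y₁, hy₁, y₂, hy₂, ?_, hray y₁ hy₁2, hray y₂ hy₂2⟩
  intro y hy
  refine len hκ.le (f := fun y => F ψ (pt t y)) (f' := fun y => deriv (F ψ) (pt t y) * I)
    (a := θ - s) (b := θ + s) (fun y _ => hasDerivAt_arc hψ ht0) ?_ ?_ y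
    ⟨by linarith [hy.1, hy₁.1], by linarith [hy.2, hy₂.2]⟩ θ ⟨by linarith, by linarith⟩
  · refine ContinuousOn.mul ?_ continuousOn_const
    refine hcF'.comp (Continuous.continuousOn (by unfold pt; fun_prop)) ?_
    intro y _
    show 0 < (pt t y).re
    rw [pt_re]
    exact ht0
  · simp only [norm_mul, norm_I, mul_one]
    exact ht2

end Run7.h991.DP
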