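import Pool.Agent.Run7.h991.DP.Cross

set_option autoImplicit false

/-! # Crossing rays and the failure of local connectivity (helper991) -/

open Set Metric Filter Topology Complex MeasureTheory

namespace Run7.h991.DP

open Pool.Agent.H637R4.PO
open Pool.Agent.R240.Loc (CIK)

variable {K : Set ℂ} {ψ : ℂ → ℂ}

/-- A wing: a connected set made of an arc of an equipotential, the end of a ray and a connected
piece of `K`. -/
theorem wing (hψ : Ext K ψ) {c : ℂ} {r δ₀ κ : ℝ} (hκ : 0 < κ) (hκr : 3 * κ < r)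
    (hκδ : 3 * κ < δ₀)
    (hcik : ∀ q ∈ K, dist q c < δ₀ → ∃ C ⊆ K ∩ ball c r, IsPreconnected C ∧ c ∈ C ∧ q ∈ C)
    {t y a b : ℝ} (ht : 0 < t) (hya : a ≤ y) (hyb : y ≤ b)
    (harc : ∀ v ∈ Icc a b, ‖F ψ (pt t v) - c‖ ≤ 2 * κ)
    (hray : ∀ x ∈ Ioc 0 t, ‖F ψ (pt x y) - c‖ ≤ 3 * κ) :
    ∃ Y : Set ℂ, IsPreconnected Y ∧ c ∈ Y ∧ (∀ v ∈ Icc a b, F ψ (pt t v) ∈ Y) ∧
      Y ⊆ ball c r ∧ ∀ x ∈ Y, x ∈ K ∨ (∃ v ∈ Icc a b, x = F ψ (pt t v)) ∨
        ∃ v ∈ Ioc 0 t, x = F ψ (pt v y) := by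
  have hcF := F_contOn hψ
  -- cluster point
  have hx0 : ∀ n : ℕ, 0 < t / ((n : ℝ) + 1) := fun n => by positivity
  have hxt : ∀ n : ℕ, t / ((n : ℝ) + 1) ≤ t := fun n => by
    apply div_le_self ht.le
    have : (0 : ℝ) ≤ n := by positivity
    linarith
  obtain ⟨b₁, hb₁, φ, hφ, hlim⟩ := (isCompact_closedBall c (3 * κ)).tendsto_subseq
    (x := fun n : ℕ => F ψ (pt (t / ((n : ℝ) + 1)) y))
    (fun n => by rw [mem_closedBall, dist_eq_norm]; exact hray _ ⟨hx0 n, hxt n⟩)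
  have htlim : Tendsto (fun n : ℕ => t / (((φ n : ℕ) : ℝ) + 1)) atTop (𝓝 0) := by
    have h1 : Tendsto (fun n : ℕ => t * (1 / ((n : ℝ) + 1))) atTop (𝓝 (t * 0)) :=
      tendsto_one_div_add_atTop_nhds_zero_nat.const_mul t
    rw [mul_zero] at h1
    refine (h1.comp hφ.tendsto_atTop).congr fun n => ?_
    simp only [Function.comp]
    ring
  have hbK : b₁ ∈ K := by
    refine mem_of_limit hψ (l := atTop) (w := fun n => exp (pt (t / (((φ n : ℕ) : ℝ) + 1)) y))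
      ?_ ?_ hlim
    · exact Eventually.of_forall fun n => one_lt_exp (by simpa using hx0 (φ n))
    · have h3 : (fun n => ‖exp (pt (t / (((φ n : ℕ) : ℝ) + 1)) y)‖) =
          fun n => Real.exp (t / (((φ n : ℕ) : ℝ) + 1)) := by
        funext n
        rw [norm_exp, pt_re]
      rw [h3]
      have h4 := (Real.continuous_exp.tendsto 0).comp htlim
      rwa [Real.exp_zero] at h4
  obtain ⟨C, hCs, hCp, hcC, hbC⟩ := hcik b₁ hbK ((mem_closedBall.1 hb₁).trans_lt hκδ)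
  obtain ⟨A, hA⟩ : ∃ A : Set ℂ, A = (fun v : ℝ => F ψ (pt t v)) '' Icc a b := ⟨_, rfl⟩
  obtain ⟨R, hR⟩ : ∃ R : Set ℂ, R = (fun x : ℝ => F ψ (pt x y)) '' Ioc 0 t := ⟨_, rfl⟩
  have hAp : IsPreconnected A := by
    rw [hA]
    refine isPreconnected_Icc.image _ ?_
    refine hcF.comp (Continuous.continuousOn (by unfold pt; fun_prop)) ?_
    intro x _
    show 0 < (pt t x).re
    rw [pt_re]
    exact ht
  have hRp : IsPreconnected R := by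
    rw [hR]
    refine isPreconnected_Ioc.image _ ?_
    refine hcF.comp (Continuous.continuousOn (by unfold pt; fun_prop)) ?_
    intro x hx
    show 0 < (pt x y).re
    rw [pt_re]
    exact hx.1
  have hb₁R : b₁ ∈ closure R := by
    refine mem_closure_of_tendsto hlim (Eventually.of_forall fun n => ?_)
    rw [hR]
    exact ⟨_, ⟨hx0 (φ n), hxt (φ n)⟩, rfl⟩
  have hRb : IsPreconnected (R ∪ {b₁}) := by
    refine hRp.subset_closure subset_union_left ?_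
    apply union_subset subset_closure
    exact singleton_subset_iff.2 hb₁R
  have hpA : F ψ (pt t y) ∈ A := by
    rw [hA]; exact ⟨y, ⟨hya, hyb⟩, rfl⟩
  have hpR : F ψ (pt t y) ∈ R := by
    rw [hR]; exact ⟨t, ⟨ht, le_rfl⟩, rfl⟩
  have hARb : IsPreconnected (A ∪ (R ∪ {b₁})) :=
    IsPreconnected.union _ hpA (Or.inl hpR) hAp hRb
  have hY : IsPreconnected ((A ∪ (R ∪ {b₁})) ∪ C) :=
    IsPreconnected.union b₁ (Or.inr (Or.inr rfl)) hbC hARb hCp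
  refine ⟨_, hY, Or.inr hcC, ?_, ?_, ?_⟩
  · intro v hv
    exact Or.inl (Or.inl (by rw [hA]; exact ⟨v, hv, rfl⟩))
  · rintro x ((hx | hx | hx) | hx)
    · rw [hA] at hx
      obtain ⟨v, hv, rfl⟩ := hx
      rw [mem_ball, dist_eq_norm]
      exact (harc v hv).trans_lt (by linarith)
    · rw [hR] at hx
      obtain ⟨v, hv, rfl⟩ := hx
      rw [mem_ball, dist_eq_norm]
      exact (hray v hv).trans_lt hκr
    · rw [mem_singleton_iff] at hx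
      rw [hx, mem_ball]
      exact (mem_closedBall.1 hb₁).trans_lt hκr
    · exact (hCs hx).2
  · rintro x ((hx | hx | hx) | hx)
    · rw [hA] at hx
      obtain ⟨v, hv, rfl⟩ := hx
      exact Or.inr (Or.inl ⟨v, hv, rfl⟩)
    · rw [hR] at hx
      obtain ⟨v, hv, rfl⟩ := hx
      exact Or.inr (Or.inr ⟨v, hv, rfl⟩)
    · rw [mem_singleton_iff] at hx
      rw [hx]
      exact Or.inl hbK
    · exact Or.inl (hCs hx).1

/-- **Rays that come close to `c` late and leave again on both sides.** -/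
theorem not_cik (hψ : Ext K ψ) (hK : IsCompact K) {c : ℂ} (hc : c ∈ K) {η : ℝ} (hη : 0 < η)
    (h : ∀ δ : ℝ, 0 < δ → ∃ θ s₁ s s₂ : ℝ, 0 < s₂ ∧ s₂ ≤ s ∧ s ≤ s₁ ∧ s < δ ∧
      ‖F ψ (pt s θ) - c‖ < δ ∧ η ≤ ‖F ψ (pt s₁ θ) - c‖ ∧ η ≤ ‖F ψ (pt s₂ θ) - c‖) :
    ¬ CIK K c := by
  intro hcik
  obtain ⟨r, hr⟩ : ∃ r, r = η / 100 := ⟨_, rfl⟩
  have hr0 : 0 < r := by rw [hr]; positivity
  obtain ⟨δ₀, hδ₀, hC⟩ := hcik r hr0
  obtain ⟨κ, hκ⟩ : ∃ κ, κ = min δ₀ r / 8 := ⟨_, rfl⟩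
  have hmin : 0 < min δ₀ r := lt_min hδ₀ hr0
  have hκ0 : 0 < κ := by rw [hκ]; positivity
  have hκ1 : 8 * κ ≤ δ₀ := by rw [hκ]; linarith [min_le_left δ₀ r]
  have hκ2 : 8 * κ ≤ r := by rw [hκ]; linarith [min_le_right δ₀ r]
  obtain ⟨σ, hσ, hσ1, hcross⟩ := crosscut hψ hK hκ0
  obtain ⟨θ, s₁, s, s₂, h0, h1, h2, h3, h4, h5, h6⟩ := h (min σ (κ / 16))
    (lt_min hσ (by positivity))
  have hs0 : 0 < s := h0.trans_le h1
  have hsσ : s < σ := h3.trans_le (min_le_left _ _)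
  have hs12 : s ≤ 1 / 2 := by linarith
  have h4' : ‖F ψ (pt s θ) - c‖ < κ / 16 := h4.trans_le (min_le_right _ _)
  obtain ⟨t, ht, y₁, hy₁, y₂, hy₂, harc, hr1, hr2⟩ := hcross s θ hs0 hsσ
  have ht0 : 0 < t := hs0.trans ht.1
  have hstep : ∀ t' : ℝ, s ≤ t' → t' ≤ 2 * s → ‖F ψ (pt t' θ) - c‖ ≤ κ := by
    intro t' ha hb
    have h7 := step hψ hc (θ := θ) hs0 hs12 ha hb
    have h8 : ‖F ψ (pt t' θ) - c‖ ≤ ‖F ψ (pt t' θ) - F ψ (pt s θ)‖ + ‖F ψ (pt s θ) - c‖ := by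
      have := norm_add_le (F ψ (pt t' θ) - F ψ (pt s θ)) (F ψ (pt s θ) - c)
      rwa [sub_add_sub_cancel] at this
    rw [norm_sub_rev c] at h7
    linarith
  have hts1 : t < s₁ := by
    by_contra hcon
    push Not at hcon
    have := hstep s₁ h2 (hcon.trans ht.2.le)
    rw [hr] at hκ2
    linarith
  have hs2t : s₂ < t := h1.trans_lt ht.1
  have htc := hstep t ht.1.le ht.2.le
  have harc' : ∀ v ∈ Icc y₁ y₂, ‖F ψ (pt t v) - c‖ ≤ 2 * κ := by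
    intro v hv
    have h8 : ‖F ψ (pt t v) - c‖ ≤ ‖F ψ (pt t v) - F ψ (pt t θ)‖ + ‖F ψ (pt t θ) - c‖ := by
      have := norm_add_le (F ψ (pt t v) - F ψ (pt t θ)) (F ψ (pt t θ) - c)
      rwa [sub_add_sub_cancel] at this
    linarith [harc v hv]
  have hy12 : y₁ ≤ y₂ := by linarith [hy₁.2, hy₂.1]
  have hray : ∀ y ∈ Icc y₁ y₂, (∀ x ∈ Ioc 0 t, ‖F ψ (pt x y) - F ψ (pt t y)‖ ≤ κ) →
      ∀ x ∈ Ioc 0 t, ‖F ψ (pt x y) - c‖ ≤ 3 * κ := by
    intro y hy hh x hx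
    have h8 : ‖F ψ (pt x y) - c‖ ≤ ‖F ψ (pt x y) - F ψ (pt t y)‖ + ‖F ψ (pt t y) - c‖ := by
      have := norm_add_le (F ψ (pt x y) - F ψ (pt t y)) (F ψ (pt t y) - c)
      rwa [sub_add_sub_cancel] at this
    linarith [hh x hx, harc' y hy]
  have hr1' := hray y₁ ⟨le_rfl, hy12⟩ hr1
  have hr2' := hray y₂ ⟨hy12, le_rfl⟩ hr2
  -- choose `τ`
  have hpos : 0 < min (θ - y₁) (y₂ - θ) :=
    lt_min (by linarith [hy₁.2]) (by linarith [hy₂.1])
  obtain ⟨τ, hτc, hτ⟩ := ((crossing hψ h0 hs2t hts1 (θ := θ)).and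
    (Ioo_mem_nhdsGT hpos)).exists
  have hτ0 : 0 < τ := hτ.1
  have hτ1 : τ < θ - y₁ := hτ.2.trans_le (min_le_left _ _)
  have hτ2 : τ < y₂ - θ := hτ.2.trans_le (min_le_right _ _)
  obtain ⟨Y₁, hY1p, hY1c, hY1a, hY1r, hY1x⟩ := wing hψ hκ0 (by linarith) (by linarith) hC
    (t := t) (y := y₁) (a := y₁) (b := θ - τ) ht0 le_rfl (by linarith)
    (fun v hv => harc' v ⟨hv.1, by linarith [hv.2]⟩) hr1'
  obtain ⟨Y₂, hY2p, hY2c, hY2a, hY2r, hY2x⟩ := wing hψ hκ0 (by linarith) (by linarith) hC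
    (t := t) (y := y₂) (a := θ + τ) (b := y₂) ht0 (by linarith) le_rfl
    (fun v hv => harc' v ⟨by linarith [hv.1], hv.2⟩) hr2'
  have hXp : IsPreconnected (Y₁ ∪ Y₂) := IsPreconnected.union c hY1c hY2c hY1p hY2p
  have hpi := Real.pi_gt_three
  have hne : ∀ x ∈ Icc s₂ s₁, ∀ t' v : ℝ, 0 < t' → θ - s < v → v < θ + s → v ≠ θ →
      F ψ (pt x θ) ≠ F ψ (pt t' v) := by
    intro x hx t' v ht' hv1 hv2 hv3 he
    have h7 := F_inj_strip hψ (ζ := pt x θ) (ζ' := pt t' v) (by simpa using h0.trans_le hx.1)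
      (by simpa using ht') (by
        simp only [pt_im]
        rw [abs_lt]; constructor <;> linarith) he
    have h8 := congrArg Complex.im h7
    simp only [pt_im] at h8
    exact hv3 h8.symm
  have hdis : ∀ x ∈ Y₁ ∪ Y₂, ∀ s' ∈ Icc s₂ s₁, F ψ (pt s' θ) ≠ x := by
    rintro x (hx | hx) s' hs'
    · rcases hY1x x hx with h7 | ⟨v, hv, rfl⟩ | ⟨v, hv, rfl⟩
      · rintro rfl
        exact F_notMem hψ (by simpa using h0.trans_le hs'.1) h7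
      · exact hne s' hs' t v ht0 (by linarith [hy₁.1, hv.1]) (by linarith [hv.2])
          (by linarith [hv.2] : v < θ).ne
      · exact hne s' hs' v y₁ hv.1 hy₁.1 (by linarith [hy₁.2]) hy₁.2.ne
    · rcases hY2x x hx with h7 | ⟨v, hv, rfl⟩ | ⟨v, hv, rfl⟩
      · rintro rfl
        exact F_notMem hψ (by simpa using h0.trans_le hs'.1) h7
      · exact hne s' hs' t v ht0 (by linarith [hv.1]) (by linarith [hy₂.2, hv.2])
          (by linarith [hv.1] : θ < v).ne'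
      · exact hne s' hs' v y₂ hv.1 (by linarith [hy₂.1]) hy₂.2 hy₂.1.ne'
  have hγ : ContinuousOn (fun s' : ℝ => F ψ (pt s' θ)) (Icc s₂ s₁) := fun s' hs' =>
    (hasDerivAt_ray hψ (h0.trans_le hs'.1)).continuousAt.continuousWithinAt
  obtain ⟨ℓ, hℓ1, hℓ2, hℓ3⟩ := winding (γ := fun s' : ℝ => F ψ (pt s' θ)) (h1.trans h2) hγ hXp
    (c := c) hr0 (union_subset hY1r hY2r) (η := η) (by rw [hr]; linarith) h6 h5 hdis
    (x := F ψ (pt t (θ - τ))) (x' := F ψ (pt t (θ + τ)))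
    (Or.inl (hY1a _ ⟨by linarith, le_rfl⟩)) (Or.inr (hY2a _ ⟨le_rfl, by linarith⟩))
  exact absurd hℓ3 (not_le.2 (hτc ℓ hℓ1 hℓ2))

/-- **Deep points surround a point where `K` is not locally connected.** -/
theorem deep_spread (hψ : Ext K ψ) (hK : IsCompact K) {p : ℂ} (hcik : ¬ CIK K p) :
    ∃ R : ℝ, 0 < R ∧ ∀ H : ℝ → ℝ, Measurable H → (∀ x, 0 < H x) →
      ∫⁻ x in Ici (0 : ℝ), ENNReal.ofReal (4 / H x) ≠ ⊤ →
      ∀ᵐ u : ℝ, 0 < u → u < R → ∃ c ∈ K, dist c p = u ∧ ¬ CIK K c ∧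
        ∃ η : ℝ, 0 < η ∧ ∀ δ : ℝ, 0 < δ → ∃ θ s s₂ : ℝ, 0 < s₂ ∧ s₂ ≤ s ∧ s < δ ∧
          ‖F ψ (pt s θ) - c‖ < δ ∧
          1 ≤ infDist (F ψ (pt s θ)) K * H (-Real.log s) ∧ η < ‖F ψ (pt s₂ θ) - c‖ := by
  obtain ⟨R, hR, hcr⟩ := cross hψ hK hcik
  refine ⟨R, hR, ?_⟩
  intro H hH hH0 hI
  filter_upwards [hcr H hH hH0 hI] with u hu hu0 huR
  obtain ⟨c, hcK, hcu, hc⟩ := hu hu0 huR
  have hη : 0 < min (u / 2) (R - u) := lt_min (by linarith) (by linarith)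
  have hfar : ∀ z : ℂ, ‖z - p‖ < u / 2 → u / 2 ≤ ‖z - c‖ := by
    intro z hz
    have h1 : ‖c - p‖ ≤ ‖z - c‖ + ‖z - p‖ := by
      have := norm_add_le (c - z) (z - p)
      rw [sub_add_sub_cancel, norm_sub_rev c z] at this
      exact this
    rw [← dist_eq_norm c p, hcu] at h1
    linarith
  have hfar2 : ∀ z : ℂ, R < ‖z - p‖ → R - u < ‖z - c‖ := by
    intro z hz
    have h1 : ‖z - p‖ ≤ ‖z - c‖ + ‖c - p‖ := by
      have := norm_add_le (z - c) (c - p)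
      rwa [sub_add_sub_cancel] at this
    rw [← dist_eq_norm c p, hcu] at h1
    linarith
  refine ⟨c, hcK, hcu, ?_, min (u / 2) (R - u), hη, ?_⟩
  · refine not_cik hψ hK hcK hη ?_
    intro δ hδ
    obtain ⟨θ, s₁, s, s₂, h1, h2, h3, h4, h5, h6, h7, h8⟩ := hc (min δ (u / 2))
      (lt_min hδ (by linarith))
    refine ⟨θ, s₁, s, s₂, h1, h2, h3, h3.trans_lt (h4.trans_le (min_le_left _ _)),
      h5.trans_le (min_le_left _ _), ?_, ?_⟩
    · exact (min_le_left _ _).trans (hfar _ (h7.trans_le (min_le_right _ _)))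
    · exact (min_le_right _ _).trans (hfar2 _ h8).le
  · intro δ hδ
    obtain ⟨θ, s₁, s, s₂, h1, h2, h3, h4, h5, h6, h7, h8⟩ := hc δ hδ
    exact ⟨θ, s, s₂, h1, h2, h3.trans_lt h4, h5, h6, (min_le_right _ _).trans_lt (hfar2 _ h8)⟩

end Run7.h991.DP
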