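import Pool.Agent.Run7.h991.DP.Asm

set_option autoImplicit false

/-! # Late rays near a given angle (helper991) -/

open Set Metric Filter Topology Complex MeasureTheory
open scoped ENNReal

namespace Run7.h991.DP

open Pool.Agent.H637R4.PO
open Pool.Agent.R240.Loc (CIK)

variable {K : Set ℂ} {ψ : ℂ → ℂ}

/-- Rays of angles close to `θ₀` which pass near `p` at small potential and then reach distance more
than `R` from `p`. -/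
def Late (ψ : ℂ → ℂ) (θ₀ : ℝ) (p : ℂ) (R : ℝ) : Prop :=
  ∀ δ : ℝ, 0 < δ → ∃ θ s₁ s₂ : ℝ, |θ - θ₀| < δ ∧ 0 < s₂ ∧ s₂ ≤ s₁ ∧ s₁ < δ ∧
    ‖F ψ (pt s₁ θ) - p‖ < δ ∧ R < ‖F ψ (pt s₂ θ) - p‖

/-- points near `p` at small potential -/
theorem mem_of_near (hψ : Ext K ψ) {p : ℂ}
    (h : ∀ δ : ℝ, 0 < δ → ∃ θ s : ℝ, 0 < s ∧ s < δ ∧ ‖F ψ (pt s θ) - p‖ < δ) : p ∈ K := by
  choose! θ s h1 h2 h3 using h
  have hlim0 : Tendsto (fun k : ℕ => 1 / ((k : ℝ) + 1)) atTop (𝓝 0) :=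
    tendsto_one_div_add_atTop_nhds_zero_nat
  have hp : ∀ k : ℕ, 0 < 1 / ((k : ℝ) + 1) := fun k => by positivity
  have hslim : Tendsto (fun k : ℕ => s (1 / ((k : ℝ) + 1))) atTop (𝓝 0) :=
    squeeze_zero (fun k => (h1 _ (hp k)).le) (fun k => (h2 _ (hp k)).le) hlim0
  refine mem_of_limit hψ (l := atTop)
    (w := fun k : ℕ => exp (pt (s (1 / ((k : ℝ) + 1))) (θ (1 / ((k : ℝ) + 1))))) ?_ ?_ ?_
  · exact Eventually.of_forall fun k => one_lt_exp (by simpa using h1 _ (hp k))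
  · have h3 : (fun k : ℕ => ‖exp (pt (s (1 / ((k : ℝ) + 1))) (θ (1 / ((k : ℝ) + 1))))‖) =
        fun k : ℕ => Real.exp (s (1 / ((k : ℝ) + 1))) := by
      funext k
      rw [norm_exp, pt_re]
    rw [h3]
    have h4 := (Real.continuous_exp.tendsto 0).comp hslim
    rwa [Real.exp_zero] at h4
  · rw [tendsto_iff_norm_sub_tendsto_zero]
    exact squeeze_zero (fun k => norm_nonneg _) (fun k => (h3 _ (hp k)).le) hlim0

theorem Late.mem (hψ : Ext K ψ) {θ₀ R : ℝ} {p : ℂ} (h : Late ψ θ₀ p R) : p ∈ K := by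
  apply mem_of_near hψ
  intro δ hδ
  obtain ⟨θ, s₁, s₂, h1, h2, h3, h4, h5, h6⟩ := h δ hδ
  exact ⟨θ, s₁, h2.trans_le h3, h4, h5⟩

/-- **Crossing**, with the angles -/
theorem cross' (hψ : Ext K ψ) {p : ℂ} {R θ₀ : ℝ} (hlate : Late ψ θ₀ p R) {H : ℝ → ℝ}
    (hH : Measurable H) (hH0 : ∀ x, 0 < H x)
    (hI : ∫⁻ x in Ici (0 : ℝ), ENNReal.ofReal (4 / H x) ≠ ⊤) :
    ∀ᵐ u : ℝ, 0 < u → u < R → ∃ c ∈ K, dist c p = u ∧ ∀ δ : ℝ, 0 < δ →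
        ∃ θ s₁ s s₂ : ℝ, |θ - θ₀| < δ ∧ 0 < s₂ ∧ s₂ ≤ s ∧ s ≤ s₁ ∧ s₁ < δ ∧
          ‖F ψ (pt s θ) - c‖ < δ ∧
          1 ≤ infDist (F ψ (pt s θ)) K * H (-Real.log s) ∧ ‖F ψ (pt s₁ θ) - p‖ < δ ∧
          R < ‖F ψ (pt s₂ θ) - p‖ := by
  have hpK := hlate.mem hψ
  have h1 : ∀ k : ℕ, ∃ x₀ : ℝ, 0 ≤ x₀ ∧ ∫⁻ x in Ici x₀, ENNReal.ofReal (4 / H x) ≤
      (2⁻¹ : ℝ≥0∞) ^ k := fun k => tail hH hI
    (ENNReal.pow_pos (ENNReal.inv_pos.2 (by norm_num)) k)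
  choose x₀ hx0 hx1 using h1
  have h2 : ∀ k : ℕ, ∃ θ s₁ s₂ : ℝ, |θ - θ₀| < min (Real.exp (-x₀ k)) (1 / ((k : ℝ) + 1)) ∧
      0 < s₂ ∧ s₂ ≤ s₁ ∧
      s₁ < min (Real.exp (-x₀ k)) (1 / ((k : ℝ) + 1)) ∧
      ‖F ψ (pt s₁ θ) - p‖ < min (Real.exp (-x₀ k)) (1 / ((k : ℝ) + 1)) ∧
      R < ‖F ψ (pt s₂ θ) - p‖ := fun k => hlate _ (lt_min (Real.exp_pos _) (by positivity))
  choose θ s₁ s₂ hθ ha hb hc hd he using h2
  have hs10 : ∀ k, 0 < s₁ k := fun k => lt_of_lt_of_le (ha k) (hb k)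
  have hbad : ∀ k, volume (Bad K ψ H p R (θ k) (s₁ k) (s₂ k)) ≤ (2⁻¹ : ℝ≥0∞) ^ k := by
    intro k
    have h3 : s₁ k < Real.exp (-x₀ k) := (hc k).trans_le (min_le_left _ _)
    have h4 : Real.exp (-x₀ k) ≤ 1 := Real.exp_le_one_iff.2 (by linarith [hx0 k])
    refine (bad_le hψ hH hH0 hpK (ha k) (hb k) (by linarith) (he k)).trans ?_
    refine le_trans (lintegral_mono_set (Ici_subset_Ici.2 ?_)) (hx1 k)
    have h5 := (Real.log_lt_iff_lt_exp (hs10 k)).2 h3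
    linarith
  have hsum : ∑' k, volume (Bad K ψ H p R (θ k) (s₁ k) (s₂ k)) ≠ ⊤ := by
    refine ne_top_of_le_ne_top ?_ (ENNReal.tsum_le_tsum hbad)
    rw [ENNReal.tsum_geometric]
    simp
  filter_upwards [ae_eventually_notMem hsum] with u hu hu0 huR
  have hk1 : ∀ᶠ k : ℕ in atTop, (1 / ((k : ℝ) + 1)) < u :=
    tendsto_one_div_add_atTop_nhds_zero_nat.eventually (gt_mem_nhds hu0)
  obtain ⟨k₀, hk₀⟩ := eventually_atTop.1 (hu.and hk1)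
  have hex : ∀ k : ℕ, ∃ s ∈ Icc (s₂ (k + k₀)) (s₁ (k + k₀)),
      ‖F ψ (pt s (θ (k + k₀))) - p‖ = u ∧
      1 ≤ infDist (F ψ (pt s (θ (k + k₀)))) K * H (-Real.log s) := by
    intro k
    obtain ⟨h3, h4⟩ := hk₀ (k + k₀) (by omega)
    by_contra hcon
    push Not at hcon
    apply h3
    refine ⟨?_, huR, fun s hs hsu => hcon s hs hsu⟩
    exact ((hd (k + k₀)).trans_le (min_le_right _ _)).trans h4
  choose s hs hsu hsH using hex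
  have hcpt : IsCompact (sphere p u) := isCompact_sphere p u
  obtain ⟨c, hcs, φ, hφ, hlim⟩ := hcpt.tendsto_subseq (x := fun k => F ψ (pt (s k) (θ (k + k₀))))
    (fun k => by rw [mem_sphere, dist_eq_norm]; exact hsu k)
  have hs0 : ∀ k, 0 < s k := fun k => lt_of_lt_of_le (ha _) (hs k).1
  have hlim0 : Tendsto (fun k : ℕ => 1 / (((φ k + k₀ : ℕ) : ℝ) + 1)) atTop (𝓝 0) :=
    tendsto_one_div_add_atTop_nhds_zero_nat.comp
      (tendsto_atTop_mono (fun k => Nat.le_add_right _ _) hφ.tendsto_atTop)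
  have hs1lim : Tendsto (fun k => s₁ (φ k + k₀)) atTop (𝓝 0) := by
    refine squeeze_zero (fun k => (hs10 _).le) (fun k => ?_) hlim0
    exact ((hc (φ k + k₀)).trans_le (min_le_right _ _)).le
  have hslim : Tendsto (fun k => s (φ k)) atTop (𝓝 0) :=
    squeeze_zero (fun k => (hs0 _).le) (fun k => (hs (φ k)).2) hs1lim
  have hdlim : Tendsto (fun k => ‖F ψ (pt (s₁ (φ k + k₀)) (θ (φ k + k₀))) - p‖) atTop (𝓝 0) := by
    refine squeeze_zero (fun k => norm_nonneg _) (fun k => ?_) hlim0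
    exact ((hd (φ k + k₀)).trans_le (min_le_right _ _)).le
  have hθlim : Tendsto (fun k => |θ (φ k + k₀) - θ₀|) atTop (𝓝 0) := by
    refine squeeze_zero (fun k => abs_nonneg _) (fun k => ?_) hlim0
    exact ((hθ (φ k + k₀)).trans_le (min_le_right _ _)).le
  have hcK : c ∈ K := by
    refine mem_of_limit hψ (l := atTop) (w := fun k => exp (pt (s (φ k)) (θ (φ k + k₀)))) ?_ ?_ hlim
    · exact Eventually.of_forall fun k => one_lt_exp (by simpa using hs0 _)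
    · have h3 : (fun k => ‖exp (pt (s (φ k)) (θ (φ k + k₀)))‖) = fun k => Real.exp (s (φ k)) := by
        funext k
        rw [norm_exp, pt_re]
      rw [h3]
      have h4 := (Real.continuous_exp.tendsto 0).comp hslim
      rwa [Real.exp_zero] at h4
  refine ⟨c, hcK, mem_sphere.1 hcs, ?_⟩
  intro δ hδ
  have h3 : Tendsto (fun k => ‖F ψ (pt (s (φ k)) (θ (φ k + k₀))) - c‖) atTop (𝓝 0) := by
    rw [← tendsto_iff_norm_sub_tendsto_zero]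
    exact hlim
  obtain ⟨k, hk1, hk2, hk3, hk4⟩ := ((hs1lim.eventually (gt_mem_nhds hδ)).and
    ((h3.eventually (gt_mem_nhds hδ)).and ((hdlim.eventually (gt_mem_nhds hδ)).and
      (hθlim.eventually (gt_mem_nhds hδ))))).exists
  exact ⟨θ (φ k + k₀), s₁ (φ k + k₀), s (φ k), s₂ (φ k + k₀), hk4, ha _, (hs (φ k)).1,
    (hs (φ k)).2, hk1, hk2, hsH (φ k), hk3, he _⟩

/-- Periodicity -/
theorem F_periodic (ψ : ℂ → ℂ) (s θ : ℝ) (m : ℤ) :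
    F ψ (pt s (θ + m * (2 * Real.pi))) = F ψ (pt s θ) := by
  unfold F pt
  congr 1
  rw [Complex.exp_eq_exp_iff_exists_int]
  exact ⟨m, by push_cast; ring⟩

/-- If `K` is not locally connected at `p` there are late rays near some angle. -/
theorem late_of_not_cik (hψ : Ext K ψ) (hK : IsCompact K) {p : ℂ} (hcik : ¬ CIK K p) :
    ∃ R : ℝ, 0 < R ∧ ∃ θ₀ : ℝ, Late ψ θ₀ p R := by
  obtain ⟨R, hR, h⟩ := late hψ hK hcik
  refine ⟨R, hR, ?_⟩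
  have h1 : ∀ k : ℕ, ∃ θ s₁ s₂ : ℝ, θ ∈ Icc 0 (2 * Real.pi) ∧ 0 < s₂ ∧ s₂ ≤ s₁ ∧
      s₁ < 1 / ((k : ℝ) + 1) ∧ ‖F ψ (pt s₁ θ) - p‖ < 1 / ((k : ℝ) + 1) ∧
      R < ‖F ψ (pt s₂ θ) - p‖ := by
    intro k
    obtain ⟨θ, s₁, s₂, h2, h3, h4, h5, h6⟩ := h (1 / ((k : ℝ) + 1)) (by positivity)
    have hpi : 0 < 2 * Real.pi := by positivity
    refine ⟨θ + (-⌊θ / (2 * Real.pi)⌋ : ℤ) * (2 * Real.pi), s₁, s₂, ?_, h2, h3, h4, ?_, ?_⟩
    · have h7 := Int.floor_le (θ / (2 * Real.pi))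
      have h8 := (Int.lt_floor_add_one (θ / (2 * Real.pi))).le
      rw [le_div_iff₀ hpi] at h7
      rw [div_le_iff₀ hpi] at h8
      push_cast
      constructor <;> linarith
    · rw [F_periodic]; exact h5
    · rw [F_periodic]; exact h6
  choose θ s₁ s₂ hθ ha hb hc hd he using h1
  obtain ⟨θ₀, _, φ, hφ, hlim⟩ := isCompact_Icc.tendsto_subseq hθ
  refine ⟨θ₀, ?_⟩
  intro δ hδ
  have hlim0 : Tendsto (fun k : ℕ => 1 / (((φ k : ℕ) : ℝ) + 1)) atTop (𝓝 0) :=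
    tendsto_one_div_add_atTop_nhds_zero_nat.comp hφ.tendsto_atTop
  have hlim1 : Tendsto (fun k => |θ (φ k) - θ₀|) atTop (𝓝 0) := by
    have h2 := (tendsto_iff_norm_sub_tendsto_zero).1 hlim
    simpa [Real.norm_eq_abs] using h2
  obtain ⟨k, hk1, hk2⟩ := ((hlim0.eventually (gt_mem_nhds hδ)).and
    (hlim1.eventually (gt_mem_nhds hδ))).exists
  exact ⟨θ (φ k), s₁ (φ k), s₂ (φ k), hk2, ha _, hb _, (hc _).trans hk1, (hd _).trans hk1, he _⟩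

/-- Two points of one impression give late rays. -/
theorem late_of_two (hψ : Ext K ψ) (hK : IsCompact K) {θ₀ : ℝ} {p q : ℂ} (hpq : p ≠ q)
    (hp : ∀ δ : ℝ, 0 < δ → ∃ θ s : ℝ, |θ - θ₀| < δ ∧ 0 < s ∧ s < δ ∧ ‖F ψ (pt s θ) - p‖ < δ)
    (hq : ∀ δ : ℝ, 0 < δ → ∃ θ s : ℝ, |θ - θ₀| < δ ∧ 0 < s ∧ s < δ ∧ ‖F ψ (pt s θ) - q‖ < δ) :
    ∃ b : ℂ, ∃ R : ℝ, 0 < R ∧ Late ψ θ₀ b R := by
  obtain ⟨D, hD⟩ : ∃ D, D = ‖p - q‖ := ⟨_, rfl⟩
  have hD0 : 0 < D := by rw [hD]; exact norm_pos_iff.2 (sub_ne_zero.2 hpq)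
  -- for every `ε` a short passage
  have key : ∀ ε : ℝ, 0 < ε → ∃ t θ s : ℝ, |θ - θ₀| < ε ∧ 0 < s ∧ s ≤ t ∧ t < ε ∧
      ‖F ψ (pt t θ) - F ψ (pt t θ₀)‖ < ε ∧ 7 / 16 * D ≤ ‖F ψ (pt s θ) - F ψ (pt t θ₀)‖ := by
    intro ε hε
    obtain ⟨σ, hσ, hσ1, hcr⟩ := crosscut hψ hK (κ := ε / 2) (by positivity)
    obtain ⟨s, hs⟩ : ∃ s, s = min σ ε / 2 := ⟨_, rfl⟩
    have hm : 0 < min σ ε := lt_min hσ hε
    have hs0 : 0 < s := by rw [hs]; positivity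
    have hsσ : s < σ := by
      rw [hs]
      linarith [min_le_left σ ε]
    have hsε : 2 * s ≤ ε := by
      rw [hs]
      linarith [min_le_right σ ε]
    obtain ⟨t, ht, y₁, hy₁, y₂, hy₂, harc, _, _⟩ := hcr s θ₀ hs0 hsσ
    have hδ : 0 < min (min s (D / 16)) (min (θ₀ - y₁) (y₂ - θ₀)) :=
      lt_min (lt_min hs0 (by positivity)) (lt_min (by linarith [hy₁.2]) (by linarith [hy₂.1]))
    obtain ⟨δ, hδe⟩ : ∃ δ, δ = min (min s (D / 16)) (min (θ₀ - y₁) (y₂ - θ₀)) := ⟨_, rfl⟩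
    rw [← hδe] at hδ
    have e1 : δ ≤ s := by rw [hδe]; exact (min_le_left _ _).trans (min_le_left _ _)
    have e2 : δ ≤ D / 16 := by rw [hδe]; exact (min_le_left _ _).trans (min_le_right _ _)
    have e3 : δ ≤ θ₀ - y₁ := by rw [hδe]; exact (min_le_right _ _).trans (min_le_left _ _)
    have e4 : δ ≤ y₂ - θ₀ := by rw [hδe]; exact (min_le_right _ _).trans (min_le_right _ _)
    have hcase : D / 2 ≤ ‖p - F ψ (pt t θ₀)‖ ∨ D / 2 ≤ ‖q - F ψ (pt t θ₀)‖ := by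
      by_contra hcon
      push Not at hcon
      have h1 := norm_sub_le (p - F ψ (pt t θ₀)) (q - F ψ (pt t θ₀))
      rw [sub_sub_sub_cancel_right, ← hD] at h1
      linarith
    have hfin : ∀ x : ℂ, D / 2 ≤ ‖x - F ψ (pt t θ₀)‖ →
        (∀ δ : ℝ, 0 < δ → ∃ θ s : ℝ, |θ - θ₀| < δ ∧ 0 < s ∧ s < δ ∧ ‖F ψ (pt s θ) - x‖ < δ) →
        ∃ t θ s : ℝ, |θ - θ₀| < ε ∧ 0 < s ∧ s ≤ t ∧ t < ε ∧
          ‖F ψ (pt t θ) - F ψ (pt t θ₀)‖ < ε ∧ 7 / 16 * D ≤ ‖F ψ (pt s θ) - F ψ (pt t θ₀)‖ := by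
      intro x hx hh
      obtain ⟨θ, s', h1, h2, h3, h4⟩ := hh δ hδ
      have h5 := abs_lt.1 h1
      refine ⟨t, θ, s', by linarith, h2, by linarith [ht.1], by linarith [ht.2], ?_, ?_⟩
      · refine (harc θ ⟨by linarith [h5.1], by linarith [h5.2]⟩).trans_lt (by linarith)
      · have h6 : ‖x - F ψ (pt t θ₀)‖ ≤ ‖F ψ (pt s' θ) - F ψ (pt t θ₀)‖ + ‖F ψ (pt s' θ) - x‖ := by
          have := norm_sub_le (F ψ (pt s' θ) - F ψ (pt t θ₀)) (F ψ (pt s' θ) - x)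
          rwa [sub_sub_sub_cancel_left] at this
        linarith
    rcases hcase with h1 | h1
    · exact hfin p h1 hp
    · exact hfin q h1 hq
  have hk : ∀ k : ℕ, 0 < min (1 / ((k : ℝ) + 1)) 1 := fun k => lt_min (by positivity) one_pos
  choose! t θ s k1 k2 k3 k4 k5 k6 using key
  obtain ⟨B, hB⟩ := bounded_annulus hψ hK (a := Real.exp 1) (Real.one_lt_exp_iff.2 one_pos)
  obtain ⟨e, he⟩ : ∃ e : ℕ → ℝ, e = fun k : ℕ => min (1 / ((k : ℝ) + 1)) 1 := ⟨_, rfl⟩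
  have he0 : ∀ k, 0 < e k := fun k => by rw [he]; exact hk k
  have he1 : ∀ k, e k ≤ 1 := fun k => by rw [he]; exact min_le_right _ _
  have he2 : ∀ k : ℕ, e k ≤ 1 / ((k : ℝ) + 1) := fun k => by rw [he]; exact min_le_left _ _
  obtain ⟨b, _, φ, hφ, hlim⟩ := (isCompact_closedBall (0 : ℂ) B).tendsto_subseq
    (x := fun k : ℕ => F ψ (pt (t (e k)) θ₀)) (fun k => by
      rw [mem_closedBall, dist_zero_right]
      have ht0 : 0 < t (e k) := (k2 _ (he0 k)).trans_le (k3 _ (he0 k))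
      refine hB _ (one_lt_exp (by simpa using ht0)) ?_
      rw [norm_exp, pt_re]
      exact Real.exp_le_exp.2 ((k4 _ (he0 k)).le.trans (he1 k)))
  refine ⟨b, D / 4, by positivity, ?_⟩
  intro δ hδ
  have hlim0 : Tendsto (fun k : ℕ => e (φ k)) atTop (𝓝 0) := by
    refine squeeze_zero (fun k => (he0 _).le) (fun k => he2 _) ?_
    exact tendsto_one_div_add_atTop_nhds_zero_nat.comp hφ.tendsto_atTop
  have hlim1 : Tendsto (fun k => ‖F ψ (pt (t (e (φ k))) θ₀) - b‖) atTop (𝓝 0) := by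
    rw [← tendsto_iff_norm_sub_tendsto_zero]
    exact hlim
  obtain ⟨k, h1, h2, h3⟩ := ((hlim0.eventually (gt_mem_nhds (half_pos hδ))).and
    ((hlim1.eventually (gt_mem_nhds (half_pos hδ))).and
      (hlim1.eventually (gt_mem_nhds (show 0 < D / 16 by positivity))))).exists
  obtain ⟨ε, hε⟩ : ∃ ε, ε = e (φ k) := ⟨_, rfl⟩
  rw [← hε] at h1 h2 h3
  have hε0 : 0 < ε := by rw [hε]; exact he0 _
  refine ⟨θ ε, t ε, s ε, ?_, k2 _ hε0, k3 _ hε0, ?_, ?_, ?_⟩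
  · linarith [k1 _ hε0]
  · linarith [k4 _ hε0]
  · have h4 : ‖F ψ (pt (t ε) (θ ε)) - b‖ ≤ ‖F ψ (pt (t ε) (θ ε)) - F ψ (pt (t ε) θ₀)‖ +
        ‖F ψ (pt (t ε) θ₀) - b‖ := by
      have := norm_add_le (F ψ (pt (t ε) (θ ε)) - F ψ (pt (t ε) θ₀)) (F ψ (pt (t ε) θ₀) - b)
      rwa [sub_add_sub_cancel] at this
    linarith [k5 _ hε0]
  · have h4 : ‖F ψ (pt (s ε) (θ ε)) - F ψ (pt (t ε) θ₀)‖ ≤ ‖F ψ (pt (s ε) (θ ε)) - b‖ +
        ‖F ψ (pt (t ε) θ₀) - b‖ := by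
      have := norm_sub_le (F ψ (pt (s ε) (θ ε)) - b) (F ψ (pt (t ε) θ₀) - b)
      rwa [sub_sub_sub_cancel_right] at this
    linarith [k6 _ hε0]

end Run7.h991.DP
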