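import Pool.Agent.Run7.h991.DP.Defs
import Pool.Agent.Run7.h991.DP.Imp

set_option autoImplicit false

/-! # Deep points and local connectivity (helper991) -/

open Set Metric Filter Topology Complex MeasureTheory
open scoped ENNReal

namespace Run7.h991.DP

open Pool.Agent.H637R4.PO
open Pool.Agent.R240.Loc (CIK)

variable {K : Set ℂ} {ψ : ℂ → ℂ}

theorem ray_eq (ψ : ℂ → ℂ) (θ s : ℝ) : ray ψ θ s = F ψ (pt s θ) := rfl

theorem gauge_rpow {a : ℝ} (ha : 1 < a) : Gauge fun x => (1 + |x|) ^ a := by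
  have hpos : ∀ x : ℝ, 0 < 1 + |x| := fun x => by positivity
  refine ⟨?_, fun x => Real.rpow_pos_of_pos (hpos x) a, ?_⟩
  · exact (Continuous.rpow_const (by fun_prop) fun x => Or.inl (hpos x).ne').measurable
  · have h1 : IntegrableOn (fun x : ℝ => x ^ (-a)) (Ioi 1) :=
      integrableOn_Ioi_rpow_of_lt (by linarith) one_pos
    have h2 : IntegrableOn (fun x : ℝ => (1 + x) ^ (-a)) (Ioi 0) := by
      have h3 := (measurePreserving_add_left (volume : Measure ℝ) 1).integrableOn_comp_preimage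
        (MeasurableEquiv.addLeft (1 : ℝ)).measurableEmbedding (f := fun x : ℝ => x ^ (-a))
        (s := Ioi 1)
      have h4 : (fun x : ℝ => 1 + x) ⁻¹' Ioi 1 = Ioi 0 := by
        ext x; simp
      rw [h4] at h3
      exact h3.2 h1
    have h3 : ∫⁻ x in Ici (0 : ℝ), ENNReal.ofReal (1 / (1 + |x|) ^ a) =
        ∫⁻ x in Ioi (0 : ℝ), ENNReal.ofReal ((1 + x) ^ (-a)) := by
      rw [setLIntegral_congr Ioi_ae_eq_Ici.symm]
      refine setLIntegral_congr_fun measurableSet_Ioi fun x hx => ?_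
      have hx' : (0 : ℝ) < x := hx
      rw [abs_of_pos hx', Real.rpow_neg (by positivity), one_div]
    rw [h3]
    exact h2.lintegral_lt_top

theorem gauge_four {H : ℝ → ℝ} (h : Gauge H) :
    ∫⁻ x in Ici (0 : ℝ), ENNReal.ofReal (4 / H x) ≠ ⊤ := by
  have h1 : ∀ x, ENNReal.ofReal (4 / H x) = ENNReal.ofReal 4 * ENNReal.ofReal (1 / H x) := by
    intro x
    rw [← ENNReal.ofReal_mul (by norm_num)]
    congr 1
    ring
  simp only [h1]
  rw [lintegral_const_mul' _ _ ENNReal.ofReal_ne_top]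
  exact ENNReal.mul_ne_top ENNReal.ofReal_ne_top h.2.2.ne

theorem deep_mem_imp {H : ℝ → ℝ} {θ₀ : ℝ} {c : ℂ} (h : Deep K ψ H θ₀ c) :
    c ∈ Impression ψ θ₀ := by
  obtain ⟨η, hη, h⟩ := h
  intro δ hδ
  obtain ⟨θ, s, s', h1, h2, h3, h4, h5, _, _⟩ := h δ hδ
  exact ⟨θ, s, h1, h2.trans_le h3, h4, h5⟩

theorem imp_sub (hψ : Ext K ψ) {θ₀ : ℝ} : Impression ψ θ₀ ⊆ K := by
  intro c hc
  apply mem_of_near hψ
  intro δ hδ
  obtain ⟨θ, s, _, h2, h3, h4⟩ := hc δ hδ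
  exact ⟨θ, s, h2, h3, by rwa [ray_eq, dist_eq_norm] at h4⟩

/-- rays start far away -/
theorem far_start (hψ : Ext K ψ) (c : ℂ) : ∃ S : ℝ, 0 < S ∧ ∀ θ : ℝ, 1 ≤ ‖F ψ (pt S θ) - c‖ := by
  obtain ⟨U, hU, hUB⟩ := t_UB K ψ hψ (‖c‖ + 1)
  refine ⟨U + 1, by linarith, ?_⟩
  intro θ
  by_contra hcon
  push Not at hcon
  have h1 : ‖F ψ (pt (U + 1) θ)‖ ≤ ‖c‖ + 1 := by
    have := norm_add_le (F ψ (pt (U + 1) θ) - c) c
    rw [sub_add_cancel] at this
    linarith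
  have h2 := hUB (exp (pt (U + 1) θ)) (one_lt_exp (by simp; linarith)) h1
  rw [norm_exp, pt_re] at h2
  have h3 := Real.add_one_le_exp (U + 1)
  linarith

theorem deep_not_cik (hψ : Ext K ψ) (hK : IsCompact K) {H : ℝ → ℝ} {θ₀ : ℝ} {c : ℂ}
    (h : Deep K ψ H θ₀ c) : ¬ CIK K c := by
  have hc : c ∈ K := imp_sub hψ (deep_mem_imp h)
  obtain ⟨S, hS, hSf⟩ := far_start hψ c
  obtain ⟨η, hη, h⟩ := h
  refine not_cik hψ hK hc (η := min η 1) (lt_min hη one_pos) ?_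
  intro δ hδ
  obtain ⟨θ, s, s', h1, h2, h3, h4, h5, _, h7⟩ := h (min δ S) (lt_min hδ hS)
  rw [ray_eq, dist_eq_norm] at h5 h7
  exact ⟨θ, S, s, s', h2, h3, (h4.trans_le (min_le_right _ _)).le, h4.trans_le (min_le_left _ _),
    h5.trans_le (min_le_left _ _), (min_le_right _ _).trans (hSf θ), (min_le_left _ _).trans h7⟩

/-- deep points are in nontrivial impressions -/
theorem deep_not_subsingleton (hψ : Ext K ψ) (hK : IsCompact K) {H : ℝ → ℝ} {θ₀ : ℝ} {c : ℂ}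
    (h : Deep K ψ H θ₀ c) : ¬ (Impression ψ θ₀).Subsingleton := by
  have hc := deep_mem_imp h
  obtain ⟨η, hη, h⟩ := h
  have hk : ∀ k : ℕ, 0 < min (1 / ((k : ℝ) + 1)) 1 := fun k => lt_min (by positivity) one_pos
  choose! θ s s' k1 k2 k3 k4 k5 _ k7 using h
  obtain ⟨B, hB⟩ := bounded_annulus hψ hK (a := Real.exp 1) (Real.one_lt_exp_iff.2 one_pos)
  obtain ⟨e, he⟩ : ∃ e : ℕ → ℝ, e = fun k : ℕ => min (1 / ((k : ℝ) + 1)) 1 := ⟨_, rfl⟩
  have he0 : ∀ k, 0 < e k := fun k => by rw [he]; exact hk k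
  have he1 : ∀ k, e k ≤ 1 := fun k => by rw [he]; exact min_le_right _ _
  have he2 : ∀ k : ℕ, e k ≤ 1 / ((k : ℝ) + 1) := fun k => by rw [he]; exact min_le_left _ _
  obtain ⟨b, _, φ, hφ, hlim⟩ := (isCompact_closedBall (0 : ℂ) B).tendsto_subseq
    (x := fun k : ℕ => ray ψ (θ (e k)) (s' (e k))) (fun k => by
      rw [mem_closedBall, dist_zero_right]
      refine hB _ (one_lt_exp (ζ := pt _ _) (by simpa using k2 _ (he0 k))) ?_
      rw [show exp ((s' (e k) : ℝ) + (θ (e k) : ℝ) * I : ℂ) = exp (pt (s' (e k)) (θ (e k))) from rfl,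
        norm_exp, pt_re]
      exact Real.exp_le_exp.2 (((k3 _ (he0 k)).trans (k4 _ (he0 k)).le).trans (he1 k)))
  have hlim0 : Tendsto (fun k : ℕ => e (φ k)) atTop (𝓝 0) := by
    refine squeeze_zero (fun k => (he0 _).le) (fun k => he2 _) ?_
    exact tendsto_one_div_add_atTop_nhds_zero_nat.comp hφ.tendsto_atTop
  have hlim1 : Tendsto (fun k => dist (ray ψ (θ (e (φ k))) (s' (e (φ k)))) b) atTop (𝓝 0) :=
    tendsto_iff_dist_tendsto_zero.1 hlim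
  have hb : b ∈ Impression ψ θ₀ := by
    intro δ hδ
    obtain ⟨k, h1, h2⟩ := ((hlim0.eventually (gt_mem_nhds hδ)).and
      (hlim1.eventually (gt_mem_nhds hδ))).exists
    exact ⟨θ (e (φ k)), s' (e (φ k)), (k1 _ (he0 _)).trans h1, k2 _ (he0 _),
      ((k3 _ (he0 _)).trans_lt (k4 _ (he0 _))).trans h1, h2⟩
  intro hsub
  have hbc : b = c := hsub hb hc
  have h1 : η ≤ dist b c := by
    refine ge_of_tendsto' ((hlim.dist tendsto_const_nhds)) fun k => ?_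
    exact k7 _ (he0 _)
  rw [hbc, dist_self] at h1
  linarith

/-- **Late rays give deep points on almost all small circles.** -/
theorem deep_of_late (hψ : Ext K ψ) {p : ℂ} {R θ₀ : ℝ} (hlate : Late ψ θ₀ p R)
    {H : ℝ → ℝ} (hH : Gauge H) :
    ∀ᵐ u : ℝ, 0 < u → u < R → ∃ c ∈ K, dist c p = u ∧ Deep K ψ H θ₀ c := by
  filter_upwards [cross' hψ hlate hH.1 hH.2.1 (gauge_four hH)] with u hu hu0 huR
  obtain ⟨c, hcK, hcu, hc⟩ := hu hu0 huR
  have hfar2 : ∀ z : ℂ, R < ‖z - p‖ → R - u < ‖z - c‖ := by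
    intro z hz
    have h1 : ‖z - p‖ ≤ ‖z - c‖ + ‖c - p‖ := by
      have := norm_add_le (z - c) (c - p)
      rwa [sub_add_sub_cancel] at this
    rw [← dist_eq_norm c p, hcu] at h1
    linarith
  refine ⟨c, hcK, hcu, R - u, by linarith, ?_⟩
  intro δ hδ
  obtain ⟨θ, s₁, s, s₂, h0, h1, h2, h3, h4, h5, h6, h7, h8⟩ := hc δ hδ
  refine ⟨θ, s, s₂, h0, h1, h2, h3.trans_lt h4, ?_, ?_, ?_⟩
  · rw [ray_eq, dist_eq_norm]; exact h5
  · rw [ray_eq, one_div s, Real.log_inv, div_le_iff₀ (hH.2.1 _)]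
    exact h6
  · rw [ray_eq, dist_eq_norm]; exact (hfar2 _ h8).le

/-- choose a circle -/
theorem exists_circle {P : ℝ → Prop} {R : ℝ} (hR : 0 < R) (h : ∀ᵐ u : ℝ, 0 < u → u < R → P u) :
    ∃ u, 0 < u ∧ u < R ∧ P u := by
  by_contra hcon
  push Not at hcon
  have h5 : volume (Ioo 0 R) = 0 := by
    apply measure_mono_null _ h
    intro s hs hcon'
    exact hcon s hs.1 hs.2 (hcon' hs.1 hs.2)
  rw [Real.volume_Ioo, ENNReal.ofReal_eq_zero] at h5
  linarith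

/-- nontrivial impressions have late rays -/
theorem late_of_imp (hψ : Ext K ψ) (hK : IsCompact K) {θ₀ : ℝ}
    (h : ¬ (Impression ψ θ₀).Subsingleton) : ∃ b : ℂ, ∃ R : ℝ, 0 < R ∧ Late ψ θ₀ b R := by
  rw [not_subsingleton_iff] at h
  obtain ⟨p, hp, q, hq, hpq⟩ := h
  refine late_of_two hψ hK hpq ?_ ?_
  · intro δ hδ
    obtain ⟨θ, s, h1, h2, h3, h4⟩ := hp δ hδ
    exact ⟨θ, s, h1, h2, h3, by rwa [ray_eq, dist_eq_norm] at h4⟩
  · intro δ hδ
    obtain ⟨θ, s, h1, h2, h3, h4⟩ := hq δ hδ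
    exact ⟨θ, s, h1, h2, h3, by rwa [ray_eq, dist_eq_norm] at h4⟩

theorem Late.mem_imp {θ₀ R : ℝ} {p : ℂ} (h : Late ψ θ₀ p R) : p ∈ Impression ψ θ₀ := by
  intro δ hδ
  obtain ⟨θ, s₁, s₂, h1, h2, h3, h4, h5, h6⟩ := h δ hδ
  exact ⟨θ, s₁, h1, h2.trans_le h3, h4, by rw [ray_eq, dist_eq_norm]; exact h5⟩

end Run7.h991.DP
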