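import Pool.Agent.Run7.h991.DP.Meas
import Pool.Agent.Run7.h991.DP.Area

set_option autoImplicit false

/-! # Rays which pass near a point of local connectivity stay near (helper991) -/

open Set Metric Filter Topology Complex MeasureTheory

namespace Run7.h991.DP

open Pool.Agent.H637R4.PO
open Pool.Agent.R240.Loc (CIK)

variable {K : Set ℂ} {ψ : ℂ → ℂ}

theorem log_div' {u v : ℂ} (hu : 0 < u.re) (hv : 0 < v.re) :
    Complex.log (u / v) = Complex.log u - Complex.log v := by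
  have hu0 : u ≠ 0 := by rintro rfl; simp at hu
  have hv0 : v ≠ 0 := by rintro rfl; simp at hv
  have h1 := abs_lt.1 (Complex.abs_arg_lt_pi_div_two_iff.2 (Or.inl hu))
  have h2 := abs_lt.1 (Complex.abs_arg_lt_pi_div_two_iff.2 (Or.inl hv))
  have hpi := Real.pi_pos
  have h3 : v.arg ≠ Real.pi := by intro h; linarith [h2.2]
  have h4 : (v⁻¹).arg = -v.arg := by
    rw [Complex.arg_inv, if_neg h3]
  rw [div_eq_mul_inv, Complex.log_mul hu0 (inv_ne_zero hv0) (by
    rw [h4]; constructor <;> linarith [h1.1, h1.2, h2.1, h2.2]), Complex.log_inv _ h3]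
  ring

theorem re_pos_of_norm {w : ℂ} (hw : ‖w‖ < 1) : 0 < (1 + w).re := by
  have h1 := Complex.abs_re_le_norm w
  have h2 := neg_abs_le w.re
  rw [add_re, one_re]
  linarith

/-- **Winding.** A connected set close to `c` which does not meet a curve from a far point to a far
point: the curve does not turn around one point of the set more than around another one. -/
theorem winding {γ : ℝ → ℂ} {a b : ℝ} (hab : a ≤ b) (hγ : ContinuousOn γ (Icc a b)) {X : Set ℂ}
    (hX : IsPreconnected X) {c : ℂ} {r η : ℝ} (hr : 0 < r) (hXr : X ⊆ ball c r)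
    (hη : 100 * r ≤ η) (ha : η ≤ ‖γ a - c‖) (hb : η ≤ ‖γ b - c‖)
    (hdis : ∀ x ∈ X, ∀ s ∈ Icc a b, γ s ≠ x) {x x' : ℂ} (hx : x ∈ X) (hx' : x' ∈ X) :
    ∃ ℓ : ℝ → ℂ, ContinuousOn ℓ (Icc a b) ∧
      (∀ s ∈ Icc a b, exp (ℓ s) = (γ s - x') / (γ s - x)) ∧ ‖ℓ b - ℓ a‖ ≤ 1 := by
  have hη0 : 0 < η := by linarith
  -- points near `1`
  have hnear : ∀ y : ℂ, η ≤ ‖y - c‖ → ∀ x ∈ X, ∃ w : ℂ, ‖w‖ ≤ 1 / 100 ∧
      (y - x) / (y - c) = 1 + w := by
    intro y hy x hx
    have h0 : y - c ≠ 0 := by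
      intro h
      rw [h, norm_zero] at hy
      linarith
    refine ⟨(c - x) / (y - c), ?_, ?_⟩
    · rw [norm_div]
      have h1 := hXr hx
      rw [mem_ball, dist_comm, dist_eq_norm] at h1
      rw [div_le_iff₀ (norm_pos_iff.2 h0)]
      linarith
    · field_simp
      ring
  obtain ⟨P, hP⟩ : ∃ P : ℂ → ℂ → Prop, P = fun x x' => ∃ ℓ : ℝ → ℂ, ContinuousOn ℓ (Icc a b) ∧
      (∀ s ∈ Icc a b, exp (ℓ s) = (γ s - x') / (γ s - x)) ∧
      ℓ b - ℓ a = (Complex.log ((γ b - x') / (γ b - c)) - Complex.log ((γ b - x) / (γ b - c))) -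
        (Complex.log ((γ a - x') / (γ a - c)) - Complex.log ((γ a - x) / (γ a - c))) := ⟨_, rfl⟩
  have hmain : P x x' := by
    refine hX.induction₂' P ?_ ?_ hx hx'
    · intro z hz
      -- positive distance from the curve
      have hcpt : IsCompact (γ '' Icc a b) := isCompact_Icc.image_of_continuousOn hγ
      have hzn : z ∉ γ '' Icc a b := by
        rintro ⟨s, hs, h⟩
        exact hdis z hz s hs h
      obtain ⟨δ, hδ, hδs⟩ := Metric.isOpen_iff.1 hcpt.isClosed.isOpen_compl z hzn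
      have hfar : ∀ s ∈ Icc a b, δ ≤ ‖γ s - z‖ := by
        intro s hs
        by_contra hcon
        push Not at hcon
        exact hδs (show γ s ∈ ball z δ by rwa [mem_ball, dist_eq_norm]) ⟨s, hs, rfl⟩
      have key : ∀ x ∈ X, ∀ y ∈ X, ‖y - x‖ < δ / 2 → ‖x - z‖ < δ / 2 → P x y := by
        intro x hxX y hyX hy hxz
        rw [hP]
        have hfx : ∀ s ∈ Icc a b, δ / 2 < ‖γ s - x‖ := by
          intro s hs
          have h1 := hfar s hs
          have h2 : ‖γ s - z‖ ≤ ‖γ s - x‖ + ‖x - z‖ := by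
            have := norm_add_le (γ s - x) (x - z)
            rwa [sub_add_sub_cancel] at this
          linarith
        have hne : ∀ s ∈ Icc a b, γ s - x ≠ 0 := fun s hs => norm_pos_iff.1 (by
          have := hfx s hs; linarith)
        have hw : ∀ s ∈ Icc a b, ‖(x - y) / (γ s - x)‖ < 1 := by
          intro s hs
          rw [norm_div, div_lt_one (norm_pos_iff.2 (hne s hs)), norm_sub_rev]
          exact hy.trans (hfx s hs)
        have heq : ∀ s ∈ Icc a b, (γ s - y) / (γ s - x) = 1 + (x - y) / (γ s - x) := by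
          intro s hs
          have := hne s hs
          field_simp
          ring
        have hsl : ∀ s ∈ Icc a b, (γ s - y) / (γ s - x) ∈ slitPlane := by
          intro s hs
          rw [heq s hs]
          exact Complex.mem_slitPlane_of_norm_lt_one (hw s hs)
        have hend : ∀ s ∈ Icc a b, η ≤ ‖γ s - c‖ → Complex.log ((γ s - y) / (γ s - x)) =
            Complex.log ((γ s - y) / (γ s - c)) - Complex.log ((γ s - x) / (γ s - c)) := by
          intro s hs h
          obtain ⟨w1, hw1, e1⟩ := hnear _ h y hyX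
          obtain ⟨w2, hw2, e2⟩ := hnear _ h x hxX
          have h0 : γ s - c ≠ 0 := by
            intro h'
            rw [h', norm_zero] at h
            linarith
          have hxs := hne s hs
          have e3 : (γ s - y) / (γ s - x) = ((γ s - y) / (γ s - c)) / ((γ s - x) / (γ s - c)) := by
            field_simp
          rw [e3, e1, e2]
          exact log_div' (re_pos_of_norm (by linarith)) (re_pos_of_norm (by linarith))
        refine ⟨fun s => Complex.log ((γ s - y) / (γ s - x)), ?_, ?_, ?_⟩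
        · apply ContinuousOn.clog _ hsl
          exact (hγ.sub continuousOn_const).div (hγ.sub continuousOn_const) hne
        · intro s hs
          rw [Complex.exp_log (slitPlane_ne_zero (hsl s hs))]
        · simp only
          rw [hend b ⟨hab, le_rfl⟩ hb, hend a ⟨le_rfl, hab⟩ ha]
      have hev : ∀ᶠ y in 𝓝[X] z, ‖y - z‖ < δ / 2 := by
        apply mem_nhdsWithin_of_mem_nhds
        filter_upwards [ball_mem_nhds z (half_pos hδ)] with y hy
        rwa [mem_ball, dist_eq_norm] at hy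
      filter_upwards [hev, self_mem_nhdsWithin] with y hy hyX
      refine ⟨key z hz y hyX hy (by simpa using half_pos hδ), key y hyX z hz ?_ hy⟩
      rw [norm_sub_rev]
      exact hy
    · intro x y z hx hy hz
      rw [hP]
      rintro ⟨ℓ, h1, h2, h3⟩ ⟨m, h4, h5, h6⟩
      refine ⟨fun s => ℓ s + m s, h1.add h4, ?_, ?_⟩
      · intro s hs
        rw [exp_add, h2 s hs, h5 s hs]
        have hx0 : γ s - x ≠ 0 := sub_ne_zero.2 (hdis x hx s hs)
        have hy0 : γ s - y ≠ 0 := sub_ne_zero.2 (hdis y hy s hs)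
        field_simp
      · simp only
        linear_combination h3 + h6
  rw [hP] at hmain
  obtain ⟨ℓ, h1, h2, h3⟩ := hmain
  refine ⟨ℓ, h1, h2, ?_⟩
  have hsm : ∀ y : ℂ, η ≤ ‖y - c‖ → ∀ x ∈ X, ‖Complex.log ((y - x) / (y - c))‖ ≤ 3 / 200 := by
    intro y hy x hx
    obtain ⟨w, hw, e⟩ := hnear y hy x hx
    rw [e]
    refine (Complex.norm_log_one_add_half_le_self (by linarith)).trans ?_
    linarith
  rw [h3]
  have e1 := hsm _ hb x' hx'
  have e2 := hsm _ hb x hx
  have e3 := hsm _ ha x' hx'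
  have e4 := hsm _ ha x hx
  refine (norm_sub_le _ _).trans ?_
  have e5 := norm_sub_le (Complex.log ((γ b - x') / (γ b - c))) (Complex.log ((γ b - x) / (γ b - c)))
  have e6 := norm_sub_le (Complex.log ((γ a - x') / (γ a - c))) (Complex.log ((γ a - x) / (γ a - c)))
  linarith

/-- the logarithm of `(x - i τ) / (x + i τ)` -/
theorem exp_arctan (x τ : ℝ) (hτ : 0 < τ) :
    exp (Real.pi * I + 2 * Real.arctan (x / τ) * I) =
      ((x : ℂ) - τ * I) / ((x : ℂ) + τ * I) := by
  obtain ⟨y, hy⟩ : ∃ y, y = x / τ := ⟨_, rfl⟩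
  have hxy : x = y * τ := by rw [hy]; field_simp
  rw [← hy]
  have hs : 0 < √(1 + y ^ 2) := Real.sqrt_pos.2 (by positivity)
  have hs2 : √(1 + y ^ 2) ^ 2 = 1 + y ^ 2 := Real.sq_sqrt (by positivity)
  have h1 : exp ((Real.arctan y : ℂ) * I) = (1 + y * I) / (√(1 + y ^ 2) : ℝ) := by
    rw [exp_mul_I, ← ofReal_cos, ← ofReal_sin, Real.cos_arctan, Real.sin_arctan]
    push_cast
    ring
  have h2 : exp (Real.pi * I + 2 * Real.arctan y * I) = -(exp ((Real.arctan y : ℂ) * I)) ^ 2 := by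
    rw [exp_add, Complex.exp_pi_mul_I, ← exp_nat_mul]
    push_cast
    ring_nf
  rw [h2, h1, div_pow, ← ofReal_pow, hs2, hxy]
  have hτc : (τ : ℂ) ≠ 0 := by exact_mod_cast hτ.ne'
  have h3 : ((1 + y ^ 2 : ℝ) : ℂ) = (1 + y * I) * (1 - y * I) := by
    push_cast
    ring_nf
    rw [I_sq]
    ring
  have h4 : (1 : ℂ) + y * I ≠ 0 := by
    intro h
    have := congrArg Complex.re h
    simp at this
  have h5 : (1 : ℂ) - y * I ≠ 0 := by
    intro h
    have := congrArg Complex.re h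
    simp at this
  have h6 : ((y * τ : ℝ) : ℂ) + τ * I ≠ 0 := by
    intro h
    have := congrArg Complex.im h
    simp at this
    exact hτ.ne' this
  rw [h3]
  have h7 : -((1 + (y : ℂ) * I) ^ 2 / ((1 + y * I) * (1 - y * I))) =
      -(1 + (y : ℂ) * I) / (1 - y * I) := by
    field_simp
  rw [h7, div_eq_div_iff h5 h6]
  push_cast
  linear_combination (-2 * (y : ℂ) * τ) * I_sq

theorem pt_sub_up (s t θ τ : ℝ) : pt s θ - pt t (θ + τ) = ((s - t : ℝ) : ℂ) - τ * I := by
  unfold pt; push_cast; ring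

theorem pt_sub_down (s t θ τ : ℝ) : pt s θ - pt t (θ - τ) = ((s - t : ℝ) : ℂ) + τ * I := by
  unfold pt; push_cast; ring

theorem ratio_near {u v lam : ℂ} (hl : lam ≠ 0) (hu : ‖u - lam‖ ≤ ‖lam‖ / 10)
    (hv : ‖v - lam‖ ≤ ‖lam‖ / 10) : ‖u / v - 1‖ ≤ 1 / 4 := by
  have hl0 : 0 < ‖lam‖ := norm_pos_iff.2 hl
  have h1 : 9 / 10 * ‖lam‖ ≤ ‖v‖ := by
    have := norm_sub_norm_le lam (lam - v)
    rw [sub_sub_cancel, norm_sub_rev lam v] at this
    linarith
  have hv0 : v ≠ 0 := norm_pos_iff.1 (by linarith)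
  have h2 : u / v - 1 = (u - lam - (v - lam)) / v := by
    field_simp
    ring
  rw [h2, norm_div, div_le_iff₀ (norm_pos_iff.2 hv0)]
  have h3 := norm_sub_le (u - lam) (v - lam)
  linarith

/-- the two difference quotients -/
noncomputable def Dq (ψ : ℂ → ℂ) (θ t s τ : ℝ) : ℂ :=
  (F ψ (pt s θ) - F ψ (pt t (θ + τ))) / (pt s θ - pt t (θ + τ))

theorem quot_close (hψ : Ext K ψ) {θ t s₁ s₂ : ℝ} (hs2 : 0 < s₂) (h2 : s₂ < t) (h1 : t < s₁) :
    ∀ᶠ τ in 𝓝 (0 : ℝ), ∀ s ∈ Icc s₂ s₁, τ ≠ 0 →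
      ‖Dq ψ θ t s τ / Dq ψ θ t s (-τ) - 1‖ ≤ 1 / 4 := by
  have ht0 : 0 < t := hs2.trans h2
  refine isCompact_Icc.eventually_forall_of_forall_eventually ?_
  intro s hs
  have hs0 : 0 < s := hs2.trans_le hs.1
  have hcont1 : Tendsto (fun z : ℝ × ℝ => (pt z.2 θ, pt t (θ + z.1))) (𝓝 (0, s))
      (𝓝 (pt s θ, pt t θ)) := by
    have : Continuous fun z : ℝ × ℝ => (pt z.2 θ, pt t (θ + z.1)) := by unfold pt; fun_prop
    have h3 := this.tendsto (0, s)
    simpa using h3
  have hcont2 : Tendsto (fun z : ℝ × ℝ => (pt z.2 θ, pt t (θ + -z.1))) (𝓝 (0, s))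
      (𝓝 (pt s θ, pt t θ)) := by
    have : Continuous fun z : ℝ × ℝ => (pt z.2 θ, pt t (θ + -z.1)) := by unfold pt; fun_prop
    have h3 := this.tendsto (0, s)
    simpa using h3
  -- a common value
  obtain ⟨lam, hlam, hev⟩ : ∃ lam : ℂ, lam ≠ 0 ∧ ∀ᶠ q : ℂ × ℂ in 𝓝 (pt s θ, pt t θ), q.1 ≠ q.2 →
      ‖(F ψ q.1 - F ψ q.2) / (q.1 - q.2) - lam‖ ≤ ‖lam‖ / 10 := by
    by_cases hst : s = t
    · subst hst
      have hd := deriv_ne hψ (a := pt s θ) (by simpa using hs0)
      refine ⟨deriv (F ψ) (pt s θ), hd, ?_⟩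
      have han : AnalyticAt ℂ (F ψ) (pt s θ) :=
        (F_diffOn hψ).analyticAt (isOpen_HP.mem_nhds (by show 0 < (pt s θ).re; simpa using hs0))
      have hstr := han.hasStrictDerivAt.hasStrictFDerivAt.isLittleO
      have h3 := hstr.def (c := ‖deriv (F ψ) (pt s θ)‖ / 10)
        (div_pos (norm_pos_iff.2 hd) (by norm_num))
      filter_upwards [h3] with q hq hne
      have hne' : q.1 - q.2 ≠ 0 := sub_ne_zero.2 hne
      have h4 : (F ψ q.1 - F ψ q.2) / (q.1 - q.2) - deriv (F ψ) (pt s θ) =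
          (F ψ q.1 - F ψ q.2 - (q.1 - q.2) * deriv (F ψ) (pt s θ)) / (q.1 - q.2) := by
        field_simp
      rw [h4, norm_div, div_le_iff₀ (norm_pos_iff.2 hne')]
      simpa using hq
    · have hne : pt s θ - pt t θ ≠ 0 := by
        intro h
        apply hst
        have := congrArg Complex.re h
        simp at this
        linarith
      have hFne : F ψ (pt s θ) - F ψ (pt t θ) ≠ 0 := by
        intro h
        apply hne
        rw [sub_eq_zero] at h ⊢
        exact F_inj_strip hψ (by simpa using hs0) (by simpa using ht0) (by simp [Real.pi_pos]) h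
      refine ⟨(F ψ (pt s θ) - F ψ (pt t θ)) / (pt s θ - pt t θ), div_ne_zero hFne hne, ?_⟩
      have h3 : ContinuousAt (fun q : ℂ × ℂ => (F ψ q.1 - F ψ q.2) / (q.1 - q.2))
          (pt s θ, pt t θ) := by
        have h4 : ContinuousAt (F ψ) (pt s θ) := (F_diffAt hψ (by simpa using hs0)).continuousAt
        have h5 : ContinuousAt (F ψ) (pt t θ) := (F_diffAt hψ (by simpa using ht0)).continuousAt
        have h6 : ContinuousAt (fun q : ℂ × ℂ => F ψ q.1) (pt s θ, pt t θ) :=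
          ContinuousAt.comp (g := F ψ) (f := Prod.fst) h4 continuousAt_fst
        have h7 : ContinuousAt (fun q : ℂ × ℂ => F ψ q.2) (pt s θ, pt t θ) :=
          ContinuousAt.comp (g := F ψ) (f := Prod.snd) h5 continuousAt_snd
        exact (h6.sub h7).div (continuousAt_fst.sub continuousAt_snd) hne
      have h8 := h3.tendsto.eventually (closedBall_mem_nhds
        ((F ψ (pt s θ) - F ψ (pt t θ)) / (pt s θ - pt t θ))
        (div_pos (norm_pos_iff.2 (div_ne_zero hFne hne)) (show (0 : ℝ) < 10 by norm_num)))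
      filter_upwards [h8] with q hq _
      rwa [dist_eq_norm] at hq
  filter_upwards [hcont1.eventually hev, hcont2.eventually hev] with z hz1 hz2 hτ
  have hneu : pt z.2 θ ≠ pt t (θ + z.1) := by
    intro h
    have := congrArg Complex.im h
    simp at this
    exact hτ this
  have hned : pt z.2 θ ≠ pt t (θ + -z.1) := by
    intro h
    have := congrArg Complex.im h
    simp at this
    exact hτ this
  exact ratio_near hlam (hz1 hneu) (hz2 hned)

/-- **Crossing.** The ray separates the two points beside it. -/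
theorem crossing (hψ : Ext K ψ) {θ t s₁ s₂ : ℝ} (hs2 : 0 < s₂) (h2 : s₂ < t) (h1 : t < s₁) :
    ∀ᶠ τ in 𝓝[>] (0 : ℝ), ∀ ℓ : ℝ → ℂ, ContinuousOn ℓ (Icc s₂ s₁) →
      (∀ s ∈ Icc s₂ s₁, exp (ℓ s) = (F ψ (pt s θ) - F ψ (pt t (θ + τ))) /
        (F ψ (pt s θ) - F ψ (pt t (θ - τ)))) → 1 < ‖ℓ s₁ - ℓ s₂‖ := by
  have ht0 : 0 < t := hs2.trans h2
  have hm : 0 < min (min (s₁ - t) (t - s₂)) 1 :=
    lt_min (lt_min (by linarith) (by linarith)) one_pos
  filter_upwards [(quot_close hψ hs2 h2 h1 (θ := θ)).filter_mono nhdsWithin_le_nhds,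
    Ioo_mem_nhdsGT hm] with τ hq hτ ℓ hℓc hℓ
  have hτ0 : 0 < τ := hτ.1
  have hτ1 : τ < s₁ - t := hτ.2.trans_le ((min_le_left _ _).trans (min_le_left _ _))
  have hτ2 : τ < t - s₂ := hτ.2.trans_le ((min_le_left _ _).trans (min_le_right _ _))
  have hτ3 : τ < 1 := hτ.2.trans_le (min_le_right _ _)
  have hpi := Real.pi_gt_three
  have hsp : ∀ s ∈ Icc s₂ s₁, 0 < s := fun s hs => hs2.trans_le hs.1
  have hup : ∀ s ∈ Icc s₂ s₁, F ψ (pt s θ) - F ψ (pt t (θ + τ)) ≠ 0 := by
    intro s hs h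
    have h3 := F_inj_strip hψ (ζ := pt s θ) (ζ' := pt t (θ + τ)) (by simpa using hsp s hs)
      (by simpa using ht0) (by
        simp only [pt_im]
        rw [abs_lt]; constructor <;> linarith) (sub_eq_zero.1 h)
    have := congrArg Complex.im h3
    simp at this
    linarith
  have hdn : ∀ s ∈ Icc s₂ s₁, F ψ (pt s θ) - F ψ (pt t (θ + -τ)) ≠ 0 := by
    intro s hs h
    have h3 := F_inj_strip hψ (ζ := pt s θ) (ζ' := pt t (θ + -τ)) (by simpa using hsp s hs)
      (by simpa using ht0) (by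
        simp only [pt_im]
        rw [abs_lt]; constructor <;> linarith) (sub_eq_zero.1 h)
    have := congrArg Complex.im h3
    simp at this
    linarith
  have hcF : ContinuousOn (fun s : ℝ => F ψ (pt s θ)) (Icc s₂ s₁) := fun s hs =>
    (hasDerivAt_ray hψ (hsp s hs)).continuousAt.continuousWithinAt
  have hpu : ∀ s : ℝ, pt s θ - pt t (θ + τ) ≠ 0 := by
    intro s h
    have := congrArg Complex.im h
    simp at this
    linarith
  have hpd : ∀ s : ℝ, pt s θ - pt t (θ + -τ) ≠ 0 := by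
    intro s h
    have := congrArg Complex.im h
    simp at this
    linarith
  have hcp : Continuous fun s : ℝ => pt s θ := by unfold pt; fun_prop
  have hDu : ContinuousOn (fun s => Dq ψ θ t s τ) (Icc s₂ s₁) := by
    unfold Dq
    exact (hcF.sub continuousOn_const).div (hcp.continuousOn.sub continuousOn_const)
      fun s _ => hpu s
  have hDd : ContinuousOn (fun s => Dq ψ θ t s (-τ)) (Icc s₂ s₁) := by
    unfold Dq
    exact (hcF.sub continuousOn_const).div (hcp.continuousOn.sub continuousOn_const)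
      fun s _ => hpd s
  have hDd0 : ∀ s ∈ Icc s₂ s₁, Dq ψ θ t s (-τ) ≠ 0 := by
    intro s hs
    unfold Dq
    exact div_ne_zero (hdn s hs) (hpd s)
  have hDu0 : ∀ s ∈ Icc s₂ s₁, Dq ψ θ t s τ ≠ 0 := by
    intro s hs
    unfold Dq
    exact div_ne_zero (hup s hs) (hpu s)
  have hR : ∀ s ∈ Icc s₂ s₁, ∃ w : ℂ, ‖w‖ ≤ 1 / 4 ∧ Dq ψ θ t s τ / Dq ψ θ t s (-τ) = 1 + w := by
    intro s hs
    exact ⟨_, hq s hs hτ0.ne', by ring⟩
  have hRsl : ∀ s ∈ Icc s₂ s₁, Dq ψ θ t s τ / Dq ψ θ t s (-τ) ∈ slitPlane := by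
    intro s hs
    obtain ⟨w, hw, e⟩ := hR s hs
    rw [e]
    exact Complex.mem_slitPlane_of_norm_lt_one (by linarith)
  have hfc : ContinuousOn (fun s : ℝ => ℓ s - (Real.pi * I + 2 * Real.arctan ((s - t) / τ) * I) -
      Complex.log (Dq ψ θ t s τ / Dq ψ θ t s (-τ))) (Icc s₂ s₁) := by
    refine (hℓc.sub ?_).sub ((hDu.div hDd hDd0).clog hRsl)
    apply Continuous.continuousOn
    have : Continuous fun s : ℝ => Real.arctan ((s - t) / τ) :=
      Real.continuous_arctan.comp (by fun_prop)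
    fun_prop
  have hf1 : ∀ s ∈ Icc s₂ s₁, exp (ℓ s - (Real.pi * I + 2 * Real.arctan ((s - t) / τ) * I) -
      Complex.log (Dq ψ θ t s τ / Dq ψ θ t s (-τ))) = 1 := by
    intro s hs
    rw [exp_sub, exp_sub, hℓ s hs, exp_arctan (s - t) τ hτ0,
      Complex.exp_log (slitPlane_ne_zero (hRsl s hs))]
    have e1 : ((s - t : ℝ) : ℂ) - τ * I = pt s θ - pt t (θ + τ) := (pt_sub_up s t θ τ).symm
    have e2 : ((s - t : ℝ) : ℂ) + τ * I = pt s θ - pt t (θ + -τ) := by
      rw [← sub_eq_add_neg]; exact (pt_sub_down s t θ τ).symm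
    rw [e1, e2]
    unfold Dq
    have a1 := hup s hs
    have a2 := hdn s hs
    have a3 := hpu s
    have a4 := hpd s
    rw [sub_eq_add_neg θ τ]
    field_simp
  have hc := const_of_exp isPreconnected_Icc hfc hf1 (show s₁ ∈ Icc s₂ s₁ from ⟨by linarith, le_rfl⟩)
    (show s₂ ∈ Icc s₂ s₁ from ⟨le_rfl, by linarith⟩)
  have hlog : ∀ s ∈ Icc s₂ s₁, ‖Complex.log (Dq ψ θ t s τ / Dq ψ θ t s (-τ))‖ ≤ 3 / 8 := by
    intro s hs
    obtain ⟨w, hw, e⟩ := hR s hs
    rw [e]
    refine (Complex.norm_log_one_add_half_le_self (by linarith)).trans ?_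
    linarith
  have hL1 := hlog s₁ ⟨by linarith, le_rfl⟩
  have hL2 := hlog s₂ ⟨le_rfl, by linarith⟩
  have harc1 : Real.pi / 4 ≤ Real.arctan ((s₁ - t) / τ) := by
    rw [← Real.arctan_one]
    apply Real.arctan_strictMono.monotone
    rw [le_div_iff₀ hτ0]; linarith
  have harc2 : Real.arctan ((s₂ - t) / τ) ≤ -(Real.pi / 4) := by
    rw [← Real.arctan_one, ← Real.arctan_neg]
    apply Real.arctan_strictMono.monotone
    rw [div_le_iff₀ hτ0]; linarith
  have heq : ℓ s₁ - ℓ s₂ = ((2 * (Real.arctan ((s₁ - t) / τ) - Real.arctan ((s₂ - t) / τ)) : ℝ) : ℂ)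
      * I + (Complex.log (Dq ψ θ t s₁ τ / Dq ψ θ t s₁ (-τ)) -
        Complex.log (Dq ψ θ t s₂ τ / Dq ψ θ t s₂ (-τ))) := by
    revert hc
    generalize Real.arctan ((s₁ - t) / τ) = A₁
    generalize Real.arctan ((s₂ - t) / τ) = A₂
    intro hc
    rw [ofReal_mul, ofReal_sub, ofReal_ofNat]
    linear_combination hc
  have hmain : ‖((2 * (Real.arctan ((s₁ - t) / τ) - Real.arctan ((s₂ - t) / τ)) : ℝ) : ℂ) * I‖ ≤
      ‖ℓ s₁ - ℓ s₂‖ + (3 / 8 + 3 / 8) := by
    have e1 : ((2 * (Real.arctan ((s₁ - t) / τ) - Real.arctan ((s₂ - t) / τ)) : ℝ) : ℂ) * I =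
        (ℓ s₁ - ℓ s₂) - (Complex.log (Dq ψ θ t s₁ τ / Dq ψ θ t s₁ (-τ)) -
        Complex.log (Dq ψ θ t s₂ τ / Dq ψ θ t s₂ (-τ))) := by
      rw [heq]; ring
    rw [e1]
    refine (norm_sub_le _ _).trans ?_
    have := norm_sub_le (Complex.log (Dq ψ θ t s₁ τ / Dq ψ θ t s₁ (-τ)))
      (Complex.log (Dq ψ θ t s₂ τ / Dq ψ θ t s₂ (-τ)))
    linarith
  rw [norm_mul, norm_I, mul_one, Complex.norm_real, Real.norm_eq_abs,
    abs_of_nonneg (by linarith)] at hmain
  linarith

end Run7.h991.DP
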