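import Mathlib

set_option autoImplicit false

/-! # Deep points of a compact set (helper991)

Let `ψ` be the conformal isomorphism from the exterior of the closed unit disc onto the complement of
`K`. Green's function of the complement of `K` is `log ‖w‖` at the point `ψ w`.
-/

open Set Metric Filter Topology Complex MeasureTheory

namespace Run7.h991.DP

/-- The point of the external ray of angle `θ` (in radians) at which Green's function equals `s`. -/
noncomputable def ray (ψ : ℂ → ℂ) (θ s : ℝ) : ℂ := ψ (exp (s + θ * I))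

/-- The impression of the external ray of angle `θ₀`: the limits of `ray ψ θ s` as `θ` tends to `θ₀`
and `s > 0` tends to `0`. -/
def Impression (ψ : ℂ → ℂ) (θ₀ : ℝ) : Set ℂ :=
  {c | ∀ δ : ℝ, 0 < δ → ∃ θ s : ℝ, |θ - θ₀| < δ ∧ 0 < s ∧ s < δ ∧ dist (ray ψ θ s) c < δ}

/-- Gauges: positive measurable functions `H` such that `1 / H` has a finite integral over `[0, ∞)`.
-/
def Gauge (H : ℝ → ℝ) : Prop :=
  Measurable H ∧ (∀ x, 0 < H x) ∧ ∫⁻ x in Ici (0 : ℝ), ENNReal.ofReal (1 / H x) < ⊤

/-- `c` is deep along the angle `θ₀`, for the gauge `H`: there is `η > 0` such that, with angles `θ`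
arbitrarily close to `θ₀`, there are points `z = ray ψ θ s` arbitrarily close to `c`, with Green's
function `s` arbitrarily small, such that the distance from `z` to `K` is at least `1 / H(log(1/s))`,
and such that between `z` and `K` the ray of angle `θ` reaches a point at distance at least `η` from
`c`. -/
def Deep (K : Set ℂ) (ψ : ℂ → ℂ) (H : ℝ → ℝ) (θ₀ : ℝ) (c : ℂ) : Prop :=
  ∃ η : ℝ, 0 < η ∧ ∀ δ : ℝ, 0 < δ → ∃ θ s s' : ℝ, |θ - θ₀| < δ ∧ 0 < s' ∧ s' ≤ s ∧ s < δ ∧
    dist (ray ψ θ s) c < δ ∧ 1 / H (Real.log (1 / s)) ≤ infDist (ray ψ θ s) K ∧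
    η ≤ dist (ray ψ θ s') c

end Run7.h991.DP
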