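import Mathlib
import Pool.Agent.H637R4.PO.QT
import Pool.Agent.H637R4.PO.KB
import Pool.Agent.H637R4.PO.UB

set_option autoImplicit false

/-! # Exterior maps in logarithmic coordinates (helper991) -/

open Set Metric Filter Topology Complex

namespace Run7.h991.DP

open Pool.Agent.H637R4.PO

variable {K : Set ℂ} {ψ : ℂ → ℂ}

/-- the exterior map in the coordinate `ζ = log w` -/
noncomputable def F (ψ : ℂ → ℂ) (ζ : ℂ) : ℂ := ψ (exp ζ)

/-- the right half plane -/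
def HP : Set ℂ := {ζ | 0 < ζ.re}

theorem isOpen_HP : IsOpen HP := isOpen_lt continuous_const Complex.continuous_re

theorem isOpen_Ex : IsOpen {z : ℂ | 1 < ‖z‖} := isOpen_lt continuous_const continuous_norm

theorem one_lt_exp {ζ : ℂ} (h : 0 < ζ.re) : 1 < ‖exp ζ‖ := by
  rw [norm_exp]
  exact Real.one_lt_exp_iff.2 h

theorem psi_notMem (hψ : Ext K ψ) {w : ℂ} (hw : 1 < ‖w‖) : ψ w ∉ K := by
  have : ψ w ∈ ψ '' {z | 1 < ‖z‖} := mem_image_of_mem _ hw
  rw [hψ.image] at this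
  exact this

theorem F_notMem (hψ : Ext K ψ) {ζ : ℂ} (h : 0 < ζ.re) : F ψ ζ ∉ K := psi_notMem hψ (one_lt_exp h)

theorem psi_diffAt (hψ : Ext K ψ) {w : ℂ} (hw : 1 < ‖w‖) : DifferentiableAt ℂ ψ w :=
  (hψ.diff w hw).differentiableAt (isOpen_Ex.mem_nhds hw)

theorem F_diffAt (hψ : Ext K ψ) {ζ : ℂ} (h : 0 < ζ.re) : DifferentiableAt ℂ (F ψ) ζ :=
  (psi_diffAt hψ (one_lt_exp h)).comp ζ differentiableAt_exp

theorem F_diffOn (hψ : Ext K ψ) : DifferentiableOn ℂ (F ψ) HP :=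
  fun _ h => (F_diffAt hψ h).differentiableWithinAt

theorem F_contOn (hψ : Ext K ψ) : ContinuousOn (F ψ) HP := (F_diffOn hψ).continuousOn

theorem F_inj (hψ : Ext K ψ) {ζ ζ' : ℂ} (h : 0 < ζ.re) (h' : 0 < ζ'.re) (he : F ψ ζ = F ψ ζ') :
    exp ζ = exp ζ' := hψ.inj (one_lt_exp h) (one_lt_exp h') he

/-- injectivity in a strip -/
theorem F_inj_strip (hψ : Ext K ψ) {ζ ζ' : ℂ} (h : 0 < ζ.re) (h' : 0 < ζ'.re)
    (hi : |ζ.im - ζ'.im| < 2 * Real.pi) (he : F ψ ζ = F ψ ζ') : ζ = ζ' := by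
  obtain ⟨n, hn⟩ := Complex.exp_eq_exp_iff_exists_int.1 (F_inj hψ h h' he)
  have h1 : ζ.im - ζ'.im = n * (2 * Real.pi) := by
    rw [hn]
    simp
  rw [h1, abs_mul, abs_of_pos Real.two_pi_pos] at hi
  have h2 : |(n : ℝ)| < 1 := by
    by_contra hcon
    push Not at hcon
    nlinarith [Real.two_pi_pos]
  have h3 : n = 0 := by
    rw [← Int.cast_abs] at h2
    have : |n| < 1 := by exact_mod_cast h2
    exact Int.abs_lt_one_iff.1 this
  rw [hn, h3]
  simp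

theorem ball_sub {a : ℂ} {r : ℝ} (hr : r ≤ a.re) : ball a r ⊆ HP := by
  intro z hz
  rw [mem_ball, dist_eq_norm] at hz
  have h1 := Complex.abs_re_le_norm (z - a)
  rw [sub_re] at h1
  have h2 := neg_abs_le (z.re - a.re)
  show 0 < z.re
  linarith

theorem F_injOn_ball (hψ : Ext K ψ) {a : ℂ} {r : ℝ} (hr : r ≤ a.re) (hr1 : r ≤ 1) :
    InjOn (F ψ) (ball a r) := by
  intro z hz z' hz' he
  apply F_inj_strip hψ (ball_sub hr hz) (ball_sub hr hz') _ he
  rw [mem_ball, dist_eq_norm] at hz hz'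
  have h1 := Complex.abs_im_le_norm (z - z')
  rw [sub_im] at h1
  have h2 : ‖z - z'‖ ≤ ‖z - a‖ + ‖z' - a‖ := by
    have h3 : z - z' = (z - a) - (z' - a) := by ring
    rw [h3]
    exact norm_sub_le _ _
  have := Real.pi_gt_three
  linarith

theorem deriv_ne (hψ : Ext K ψ) {a : ℂ} (ha : 0 < a.re) : deriv (F ψ) a ≠ 0 := by
  have h1 : (0 : ℝ) < min a.re 1 := lt_min ha one_pos
  exact (t_KB (F ψ) a _ h1 ((F_diffOn hψ).mono (ball_sub (min_le_left _ _)))
    (F_injOn_ball hψ (min_le_left _ _) (min_le_right _ _))).1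

/-- Koebe's theorem: the derivative and the distance to `K` -/
theorem koebe (hψ : Ext K ψ) {a v : ℂ} (hv : v ∈ K) {s : ℝ} (hs0 : 0 < s) (hs : s ≤ a.re)
    (hs1 : s ≤ 1) : s * ‖deriv (F ψ) a‖ ≤ 4 * ‖v - F ψ a‖ := by
  refine t_QT t_KB (F ψ) a v s hs0 ((F_diffOn hψ).mono (ball_sub hs)) (F_injOn_ball hψ hs hs1) ?_
  rintro ⟨z, hz, h⟩
  exact F_notMem hψ (ball_sub hs hz) (h ▸ hv)

/-- the point of the ray of angle `θ` at potential `s` -/
noncomputable def pt (s θ : ℝ) : ℂ := (s : ℂ) + (θ : ℂ) * I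

@[simp] theorem pt_re (s θ : ℝ) : (pt s θ).re = s := by simp [pt]

@[simp] theorem pt_im (s θ : ℝ) : (pt s θ).im = θ := by simp [pt]

theorem hasDerivAt_ray (hψ : Ext K ψ) {s θ : ℝ} (hs : 0 < s) :
    HasDerivAt (fun s : ℝ => F ψ (pt s θ)) (deriv (F ψ) (pt s θ)) s := by
  have h1 : HasDerivAt (F ψ) (deriv (F ψ) (pt s θ)) (pt s θ) :=
    (F_diffAt hψ (by simpa using hs)).hasDerivAt
  have h2 : HasDerivAt (fun s : ℝ => pt s θ) 1 s := by
    unfold pt
    exact (Complex.ofRealCLM.hasDerivAt (x := s)).add_const _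
  have h3 := h1.comp s h2
  rw [mul_one] at h3
  exact h3

theorem hasDerivAt_arc (hψ : Ext K ψ) {s θ : ℝ} (hs : 0 < s) :
    HasDerivAt (fun θ : ℝ => F ψ (pt s θ)) (deriv (F ψ) (pt s θ) * I) θ := by
  have h1 : HasDerivAt (F ψ) (deriv (F ψ) (pt s θ)) (pt s θ) :=
    (F_diffAt hψ (by simpa using hs)).hasDerivAt
  have h2 : HasDerivAt (fun θ : ℝ => pt s θ) I θ := by
    unfold pt
    simpa using ((Complex.ofRealCLM.hasDerivAt (x := θ)).mul_const I).const_add (s : ℂ)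
  exact h1.comp θ h2

/-- along a ray: from potential `s` to at most `2 s` -/
theorem step (hψ : Ext K ψ) {v : ℂ} (hv : v ∈ K) {s t θ : ℝ} (hs0 : 0 < s) (hs : s ≤ 1 / 2)
    (hst : s ≤ t) (ht : t ≤ 2 * s) :
    ‖F ψ (pt t θ) - F ψ (pt s θ)‖ ≤ 15 * ‖v - F ψ (pt s θ)‖ := by
  have hlog2 : (0 : ℝ) ≤ Real.log 2 := Real.log_nonneg (by norm_num)
  obtain ⟨x₀, hx₀⟩ : ∃ x₀, x₀ = Real.log (t / s) := ⟨_, rfl⟩
  have ht0 : 0 < t := lt_of_lt_of_le hs0 hst
  have hx0 : 0 ≤ x₀ := by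
    rw [hx₀]; exact Real.log_nonneg ((one_le_div hs0).2 hst)
  have hx2 : x₀ ≤ Real.log 2 := by
    rw [hx₀]
    apply Real.log_le_log (by positivity)
    rw [div_le_iff₀ hs0]; exact ht
  have hsx : s * Real.exp x₀ = t := by
    rw [hx₀, Real.exp_log (by positivity)]
    field_simp
  have hder : ∀ x : ℝ, HasDerivAt (fun x : ℝ => F ψ (pt (s * Real.exp x) θ) - F ψ (pt s θ))
      ((s * Real.exp x : ℝ) • deriv (F ψ) (pt (s * Real.exp x) θ)) x := by
    intro x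
    have h1 : HasDerivAt (fun x : ℝ => s * Real.exp x) (s * Real.exp x) x :=
      (Real.hasDerivAt_exp x).const_mul s
    have h2 := hasDerivAt_ray hψ (s := s * Real.exp x) (θ := θ) (by positivity)
    exact (h2.scomp x h1).sub_const _
  have h1 := norm_le_gronwallBound_of_norm_deriv_right_le
    (f := fun x : ℝ => F ψ (pt (s * Real.exp x) θ) - F ψ (pt s θ))
    (f' := fun x : ℝ => (s * Real.exp x : ℝ) • deriv (F ψ) (pt (s * Real.exp x) θ))
    (δ := 0) (K := 4) (ε := 4 * ‖v - F ψ (pt s θ)‖) (a := 0) (b := Real.log 2)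
    (fun x _ => (hder x).continuousAt.continuousWithinAt)
    (fun x _ => (hder x).hasDerivWithinAt) (by simp)
    (fun x hx => by
      have h2 : s * Real.exp x ≤ 1 := by
        have h3 : Real.exp x ≤ 2 := by
          rw [← Real.exp_log (show (0 : ℝ) < 2 by norm_num)]
          exact Real.exp_le_exp.2 hx.2.le
        nlinarith
      have h4 := koebe hψ (a := pt (s * Real.exp x) θ) hv (s := s * Real.exp x) (by positivity)
        (by simp) h2
      rw [norm_smul, Real.norm_eq_abs, abs_of_pos (by positivity)]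
      refine h4.trans ?_
      have h5 : ‖v - F ψ (pt (s * Real.exp x) θ)‖ ≤
          ‖F ψ (pt (s * Real.exp x) θ) - F ψ (pt s θ)‖ + ‖v - F ψ (pt s θ)‖ := by
        have h6 : v - F ψ (pt (s * Real.exp x) θ) =
            -(F ψ (pt (s * Real.exp x) θ) - F ψ (pt s θ)) + (v - F ψ (pt s θ)) := by ring
        rw [h6]
        exact (norm_add_le _ _).trans (by rw [norm_neg])
      linarith)
    x₀ ⟨hx0, hx2⟩
  simp only [hsx] at h1
  refine h1.trans ?_
  rw [gronwallBound_of_K_ne_0 (by norm_num)]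
  have h7 : Real.exp (4 * (x₀ - 0)) ≤ 16 := by
    rw [sub_zero]
    calc Real.exp (4 * x₀) ≤ Real.exp (4 * Real.log 2) := by gcongr
      _ = 16 := by
        rw [show (4 : ℝ) * Real.log 2 = ((4 : ℕ) : ℝ) * Real.log 2 by norm_num, Real.exp_nat_mul,
          Real.exp_log (by norm_num)]
        norm_num
  have h8 := norm_nonneg (v - F ψ (pt s θ))
  beta_reduce
  rw [zero_mul, zero_add]
  have h9 : 4 * ‖v - F ψ (pt s θ)‖ / 4 = ‖v - F ψ (pt s θ)‖ := by ring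
  rw [h9]
  nlinarith

/-- near `K` the potential is small -/
theorem small_of_near (hψ : Ext K ψ) (hK : IsCompact K) {ε : ℝ} (hε : 0 < ε) : ∃ δ : ℝ, 0 < δ ∧
    ∀ w : ℂ, 1 < ‖w‖ → ∀ v ∈ K, ‖ψ w - v‖ < δ → ‖w‖ < 1 + ε := by
  obtain ⟨A, hA⟩ := hK.isBounded.subset_closedBall (0 : ℂ)
  obtain ⟨U, hU, hUB⟩ := t_UB K ψ hψ (A + 1)
  obtain ⟨C, hC⟩ : ∃ C : Set ℂ, C = closedBall 0 (1 + U) ∩ {w | 1 + ε ≤ ‖w‖} := ⟨_, rfl⟩
  have hCc : IsCompact C := by
    rw [hC]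
    exact (isCompact_closedBall _ _).inter_right (isClosed_le continuous_const continuous_norm)
  have hCs : C ⊆ {z | 1 < ‖z‖} := by
    rw [hC]
    intro w hw
    have := hw.2
    simp only [mem_ofPred_eq] at this ⊢
    linarith
  have hCi : IsCompact (ψ '' C) := hCc.image_of_continuousOn (hψ.diff.continuousOn.mono hCs)
  have hdis : Disjoint K (ψ '' C) := by
    rw [disjoint_left]
    rintro _ hx ⟨w, hw, rfl⟩
    exact psi_notMem hψ (hCs hw) hx
  obtain ⟨δ, hδ, hd⟩ := hdis.exists_thickenings hK hCi.isClosed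
  refine ⟨min δ 1, lt_min hδ one_pos, ?_⟩
  intro w hw v hv hwv
  by_contra hcon
  push Not at hcon
  have h1 : ‖ψ w‖ ≤ A + 1 := by
    have h2 := hA hv
    rw [mem_closedBall, dist_zero_right] at h2
    have h3 : ‖ψ w‖ ≤ ‖ψ w - v‖ + ‖v‖ := by
      have := norm_add_le (ψ w - v) v
      rwa [sub_add_cancel] at this
    have h4 := hwv.trans_le (min_le_right _ _)
    linarith
  have h2 := hUB w hw h1
  have h3 : w ∈ C := by
    rw [hC]
    refine ⟨?_, hcon⟩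
    rw [mem_closedBall, dist_zero_right]
    linarith
  have h4 : ψ w ∈ thickening δ K := by
    rw [mem_thickening_iff]
    exact ⟨v, hv, by rw [dist_eq_norm]; exact hwv.trans_le (min_le_left _ _)⟩
  exact disjoint_left.1 hd h4 (self_subset_thickening hδ _ (mem_image_of_mem _ h3))

/-- limits of points whose potential tends to zero are in `K` -/
theorem mem_of_limit (hψ : Ext K ψ) {ι : Type*} {l : Filter ι} [l.NeBot] {w : ι → ℂ} {c : ℂ}
    (h1 : ∀ᶠ i in l, 1 < ‖w i‖) (h2 : Tendsto (fun i => ‖w i‖) l (𝓝 1))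
    (h3 : Tendsto (fun i => ψ (w i)) l (𝓝 c)) : c ∈ K := by
  by_contra hc
  have hc' : c ∈ ψ '' {z | 1 < ‖z‖} := by rw [hψ.image]; exact hc
  obtain ⟨wc, hwc, rfl⟩ := hc'
  have hwc' : 1 < ‖wc‖ := hwc
  obtain ⟨r, hr1, hr2⟩ := exists_between hwc'
  have hder : deriv ψ wc ≠ 0 := by
    obtain ⟨ρ, hρ, hb⟩ := Metric.isOpen_iff.1 isOpen_Ex wc hwc
    exact (t_KB ψ wc ρ hρ (hψ.diff.mono hb) (hψ.inj.mono hb)).1
  have han : AnalyticAt ℂ ψ wc := hψ.diff.analyticAt (isOpen_Ex.mem_nhds hwc)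
  have hstr : HasStrictDerivAt ψ (deriv ψ wc) wc := han.hasStrictDerivAt
  have hmap := hstr.map_nhds_eq hder
  have hU : {w : ℂ | r < ‖w‖} ∈ 𝓝 wc := (isOpen_lt continuous_const continuous_norm).mem_nhds hr2
  have h4 : ψ '' {w : ℂ | r < ‖w‖} ∈ 𝓝 (ψ wc) := by
    rw [← hmap]
    exact image_mem_map hU
  have h5 : ∀ᶠ i in l, r < ‖w i‖ := by
    filter_upwards [h3 h4, h1] with i hi hi1
    obtain ⟨w', hw', he⟩ := hi
    have hw'' : 1 < ‖w'‖ := hr1.trans hw'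
    rw [← hψ.inj hw'' hi1 he]
    exact hw'
  have h6 : r ≤ 1 := ge_of_tendsto h2 (h5.mono fun i hi => hi.le)
  linarith

end Run7.h991.DP
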