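import Pool.Agent.Run7.h991.DP.Top
import Pool.Agent.Run7.h991.DP.Ext
import Pool.Agent.R240.Loc

set_option autoImplicit false

/-! # Rays which pass late near a point where `K` is not locally connected (helper991) -/

open Set Metric Filter Topology Complex

namespace Run7.h991.DP

open Pool.Agent.H637R4.PO
open Pool.Agent.R240.Loc (CIK)

variable {K : Set ℂ} {ψ : ℂ → ℂ}

theorem mem_of_not_cik (hK : IsCompact K) {p : ℂ} (h : ¬ CIK K p) : p ∈ K := by
  by_contra hp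
  apply h
  intro ε hε
  obtain ⟨δ, hδ, hb⟩ := Metric.isOpen_iff.1 hK.isClosed.isOpen_compl p hp
  exact ⟨δ, hδ, fun q hq hqp => absurd hq (hb hqp)⟩

/-- the inverse of the exterior map -/
noncomputable def inv (ψ : ℂ → ℂ) : ℂ → ℂ := Function.invFunOn ψ {z | 1 < ‖z‖}

theorem inv_spec (hψ : Ext K ψ) {z : ℂ} (hz : z ∉ K) : 1 < ‖inv ψ z‖ ∧ ψ (inv ψ z) = z := by
  have h1 : z ∈ ψ '' {z | 1 < ‖z‖} := by rw [hψ.image]; exact hz
  exact ⟨Function.invFunOn_mem h1, Function.invFunOn_eq h1⟩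

theorem inv_psi (hψ : Ext K ψ) {w : ℂ} (hw : 1 < ‖w‖) : inv ψ (ψ w) = w := by
  obtain ⟨h1, h2⟩ := inv_spec hψ (psi_notMem hψ hw)
  exact hψ.inj h1 hw h2

theorem inv_cont (hψ : Ext K ψ) {z : ℂ} (hz : z ∉ K) : ContinuousAt (inv ψ) z := by
  obtain ⟨h1, h2⟩ := inv_spec hψ hz
  obtain ⟨w, hw⟩ : ∃ w, w = inv ψ z := ⟨_, rfl⟩
  rw [← hw] at h1 h2
  have hder : deriv ψ w ≠ 0 := by
    obtain ⟨ρ, hρ, hb⟩ := Metric.isOpen_iff.1 isOpen_Ex w h1
    exact (t_KB ψ w ρ hρ (hψ.diff.mono hb) (hψ.inj.mono hb)).1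
  have han : AnalyticAt ℂ ψ w := hψ.diff.analyticAt (isOpen_Ex.mem_nhds h1)
  have hmap := han.hasStrictDerivAt.map_nhds_eq hder
  intro U hU
  rw [← hw] at hU
  have h3 : U ∩ {z | 1 < ‖z‖} ∈ 𝓝 w := inter_mem hU (isOpen_Ex.mem_nhds h1)
  have h4 : ψ '' (U ∩ {z | 1 < ‖z‖}) ∈ 𝓝 z := by
    rw [← h2, ← hmap]
    exact image_mem_map h3
  rw [Filter.mem_map]
  filter_upwards [h4] with y hy
  obtain ⟨v, hv, rfl⟩ := hy
  show inv ψ (ψ v) ∈ U
  rw [inv_psi hψ hv.2]
  exact hv.1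

/-- separation of two points in different components of a compact set -/
theorem separate {X : Set ℂ} (hX : IsCompact X) {p q : ℂ} (hp : p ∈ X) (hq : q ∈ X)
    (h : ∀ C ⊆ X, IsPreconnected C → p ∈ C → q ∉ C) :
    ∃ A B : Set ℂ, IsCompact A ∧ IsCompact B ∧ Disjoint A B ∧ p ∈ A ∧ q ∈ B ∧ A ∪ B = X := by
  have : CompactSpace X := isCompact_iff_compactSpace.1 hX
  have h1 : (⟨q, hq⟩ : X) ∉ connectedComponent (⟨p, hp⟩ : X) := by
    intro h2
    refine h (Subtype.val '' connectedComponent (⟨p, hp⟩ : X)) ?_ ?_ ?_ ⟨_, h2, rfl⟩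
    · rintro _ ⟨y, _, rfl⟩
      exact y.2
    · exact isPreconnected_connectedComponent.image _ continuous_subtype_val.continuousOn
    · exact ⟨_, mem_connectedComponent, rfl⟩
  rw [connectedComponent_eq_iInter_isClopen, mem_iInter] at h1
  push Not at h1
  obtain ⟨⟨S, hS, hpS⟩, hqS⟩ := h1
  refine ⟨Subtype.val '' S, Subtype.val '' Sᶜ, ?_, ?_, ?_, ⟨_, hpS, rfl⟩, ⟨_, hqS, rfl⟩, ?_⟩
  · exact hS.1.isCompact.image continuous_subtype_val
  · exact hS.compl.1.isCompact.image continuous_subtype_val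
  · exact (disjoint_image_iff Subtype.val_injective).2 disjoint_compl_right
  · rw [← image_union, union_compl_self, image_univ, Subtype.range_coe]

/-- If `K` is not locally connected at `p` then there are rays which pass near `p` at arbitrarily
small potential and afterwards reach a point at distance more than `R` from `p`. -/
theorem late (hψ : Ext K ψ) (hK : IsCompact K) {p : ℂ} (hcik : ¬ CIK K p) :
    ∃ R : ℝ, 0 < R ∧ ∀ ρ : ℝ, 0 < ρ → ∃ θ s₁ s₂ : ℝ, 0 < s₂ ∧ s₂ ≤ s₁ ∧ s₁ < ρ ∧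
      ‖F ψ (pt s₁ θ) - p‖ < ρ ∧ R < ‖F ψ (pt s₂ θ) - p‖ := by
  have hpK := mem_of_not_cik hK hcik
  unfold CIK at hcik
  push Not at hcik
  obtain ⟨ε₀, hε₀, hcik⟩ := hcik
  refine ⟨ε₀ / 2, by positivity, ?_⟩
  intro ρ hρ
  obtain ⟨δ, hδ, hsmall⟩ := small_of_near hψ hK hρ
  obtain ⟨R, hR⟩ : ∃ R, R = ε₀ / 2 := ⟨_, rfl⟩
  have hR0 : 0 < R := by rw [hR]; positivity
  rw [← hR]
  obtain ⟨q, hqK, hqp, hsep⟩ := hcik (min (min ρ δ) R / 4) (by positivity)
  rw [dist_eq_norm] at hqp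
  have hqρ : 2 * ‖q - p‖ < ρ := by
    have h1 : min (min ρ δ) R ≤ ρ := (min_le_left _ _).trans (min_le_left _ _)
    have h2 : 0 < min (min ρ δ) R := by positivity
    linarith
  have hqδ : 2 * ‖q - p‖ < δ := by
    have h1 : min (min ρ δ) R ≤ δ := (min_le_left _ _).trans (min_le_right _ _)
    have h2 : 0 < min (min ρ δ) R := by positivity
    linarith
  have hqR : 2 * ‖q - p‖ < R := by
    have h1 : min (min ρ δ) R ≤ R := min_le_right _ _
    have h2 : 0 < min (min ρ δ) R := by positivity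
    linarith
  -- the separation
  obtain ⟨A, B, hA, hB, hAB, hpA, hqB, hX⟩ := separate (X := K ∩ closedBall p R)
    (hK.inter_right isClosed_closedBall) (p := p) (q := q) ⟨hpK, mem_closedBall_self hR0.le⟩
    ⟨hqK, by
      rw [mem_closedBall, dist_eq_norm]
      have := norm_nonneg (q - p)
      linarith⟩ (by
      intro C hC h1 h2
      refine hsep C (hC.trans ?_) h1 h2
      exact inter_subset_inter_right _ (closedBall_subset_ball (by rw [hR]; linarith)))
  -- the quotient at points not too close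
  have hquot : ∀ z : ℂ, 2 * ‖q - p‖ < ‖z - p‖ → (z - p) / (z - q) ∈ slitPlane ∧ z - q ≠ 0 := by
    intro z hz
    have h1 : ‖z - p‖ ≤ ‖z - q‖ + ‖q - p‖ := by
      have := norm_add_le (z - q) (q - p)
      rwa [sub_add_sub_cancel] at this
    have h2 : ‖q - p‖ < ‖z - q‖ := by linarith
    have h3 : z - q ≠ 0 := by
      intro h3
      rw [h3, norm_zero] at h2
      linarith [norm_nonneg (q - p)]
    refine ⟨?_, h3⟩
    have h4 : (z - p) / (z - q) = 1 + (q - p) / (z - q) := by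
      field_simp
      ring
    rw [h4]
    apply Complex.mem_slitPlane_of_norm_lt_one
    rw [norm_div, div_lt_one (norm_pos_iff.2 h3)]
    exact h2
  -- the logarithm in the disc
  classical
  obtain ⟨g, hg⟩ : ∃ g : ℂ → ℂ, g = fun u => if u = 0 then 1 else (ψ u⁻¹ - p) / (ψ u⁻¹ - q) :=
    ⟨_, rfl⟩
  have hg0 : g 0 = 1 := by rw [hg]; simp
  have hgu : ∀ u, u ≠ 0 → g u = (ψ u⁻¹ - p) / (ψ u⁻¹ - q) := by
    intro u hu
    rw [hg]; simp [hu]
  have hball : ∀ u ∈ ball (0 : ℂ) 1, u ≠ 0 → 1 < ‖u⁻¹‖ := by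
    intro u hu hu0
    rw [mem_ball_zero_iff] at hu
    rw [norm_inv]
    exact (one_lt_inv₀ (norm_pos_iff.2 hu0)).2 hu
  have hnep : ∀ w : ℂ, 1 < ‖w‖ → ψ w - p ≠ 0 := by
    intro w hw h
    exact psi_notMem hψ hw (sub_eq_zero.1 h ▸ hpK)
  have hneq : ∀ w : ℂ, 1 < ‖w‖ → ψ w - q ≠ 0 := by
    intro w hw h
    exact psi_notMem hψ hw (sub_eq_zero.1 h ▸ hqK)
  have hgc0 : ContinuousAt g 0 := by
    rw [continuousAt_iff_punctured_nhds]
    have h1 : Tendsto (fun z : ℂ => (ψ z / z - p * z⁻¹) / (ψ z / z - q * z⁻¹))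
        (Bornology.cobounded ℂ) (𝓝 ((1 - p * 0) / (1 - q * 0))) := by
      have h2 : Tendsto (fun z : ℂ => z⁻¹) (Bornology.cobounded ℂ) (𝓝 0) :=
        tendsto_inv₀_cobounded
      refine Tendsto.div (hψ.infinity.sub (h2.const_mul p)) (hψ.infinity.sub (h2.const_mul q)) ?_
      simp
    simp only [mul_zero, sub_zero, div_one] at h1
    rw [hg0]
    have h3 := h1.comp (tendsto_inv₀_nhdsNE_zero (α := ℂ))
    refine h3.congr' ?_
    filter_upwards [self_mem_nhdsWithin] with u hu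
    have hu0 : u ≠ 0 := hu
    simp only [Function.comp]
    rw [hgu u hu0, inv_inv, div_inv_eq_mul]
    have e1 : ψ u⁻¹ * u - p * u = (ψ u⁻¹ - p) * u := by ring
    have e2 : ψ u⁻¹ * u - q * u = (ψ u⁻¹ - q) * u := by ring
    rw [e1, e2, mul_div_mul_right _ _ hu0]
  have hgc : ContinuousOn g (ball 0 1) := by
    intro u hu
    by_cases hu0 : u = 0
    · rw [hu0]; exact hgc0.continuousWithinAt
    · apply ContinuousAt.continuousWithinAt
      have h1 : g =ᶠ[𝓝 u] fun u => (ψ u⁻¹ - p) / (ψ u⁻¹ - q) := by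
        filter_upwards [isOpen_ne.mem_nhds hu0] with v hv using hgu v hv
      refine ContinuousAt.congr ?_ h1.symm
      have h2 : ContinuousAt (fun u : ℂ => ψ u⁻¹) u :=
        ContinuousAt.comp (g := ψ) (psi_diffAt hψ (hball u hu hu0)).continuousAt (continuousAt_inv₀ hu0)
      exact (h2.sub continuousAt_const).div (h2.sub continuousAt_const) (hneq _ (hball u hu hu0))
  have hgne : ∀ u ∈ ball (0 : ℂ) 1, g u ≠ 0 := by
    intro u hu
    by_cases hu0 : u = 0
    · rw [hu0, hg0]; exact one_ne_zero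
    · rw [hgu u hu0]
      exact div_ne_zero (hnep _ (hball u hu hu0)) (hneq _ (hball u hu hu0))
  obtain ⟨ℓ, hℓc, hℓ, hℓ0⟩ := exists_log (A := ball (0 : ℂ) 1) (mem_ball_self one_pos) (by
    intro x hx s hs
    rw [mem_ball_zero_iff] at hx ⊢
    rw [norm_mul, Complex.norm_real, Real.norm_eq_abs, abs_of_nonneg hs.1]
    have := norm_nonneg x
    nlinarith [hs.2]) hgc hg0 hgne
  have hinvball : ∀ w : ℂ, 1 < ‖w‖ → w⁻¹ ∈ ball (0 : ℂ) 1 ∧ w⁻¹ ≠ 0 := by
    intro w hw
    have h0 : w ≠ 0 := by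
      rintro rfl
      rw [norm_zero] at hw
      linarith
    refine ⟨?_, inv_ne_zero h0⟩
    rw [mem_ball_zero_iff, norm_inv]
    exact inv_lt_one_of_one_lt₀ hw
  have hgw : ∀ w : ℂ, 1 < ‖w‖ → g w⁻¹ = (ψ w - p) / (ψ w - q) := by
    intro w hw
    rw [hgu _ (hinvball w hw).2, inv_inv]
  -- a point where the logarithm is not the principal one
  obtain ⟨w, hw1, hwR, hwne⟩ : ∃ w : ℂ, 1 < ‖w‖ ∧ R < ‖ψ w - p‖ ∧
      ℓ w⁻¹ ≠ Complex.log ((ψ w - p) / (ψ w - q)) := by
    by_contra hcon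
    push Not at hcon
    obtain ⟨L, hL⟩ : ∃ L : ℂ → ℂ, L = fun z => if z ∈ K then Complex.log ((z - p) / (z - q)) else
        ℓ (inv ψ z)⁻¹ := ⟨_, rfl⟩
    have hL1 : ∀ z, z ∉ K → L z = ℓ (inv ψ z)⁻¹ := by
      intro z hz
      rw [hL]; simp [hz]
    have hL2 : ∀ z, R < ‖z - p‖ → L z = Complex.log ((z - p) / (z - q)) := by
      intro z hz
      by_cases hzK : z ∈ K
      · rw [hL]; simp [hzK]
      · obtain ⟨h1, h2⟩ := inv_spec hψ hzK
        rw [hL1 z hzK, hcon _ h1 (by rw [h2]; exact hz), h2]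
    have hset : ∀ z, z ∈ (A ∪ B)ᶜ ↔ z ∉ K ∨ R < ‖z - p‖ := by
      intro z
      rw [hX, mem_compl_iff, mem_inter_iff, mem_closedBall, dist_eq_norm, not_and_or, not_le]
    have hRq : ∀ z, R < ‖z - p‖ → 2 * ‖q - p‖ < ‖z - p‖ := fun z hz => hqR.trans hz
    refine no_log hA hB hAB hpA hqB (L := L) ?_ ?_
    · intro z hz
      apply ContinuousAt.continuousWithinAt
      rcases (hset z).1 hz with h1 | h1
      · have h2 : L =ᶠ[𝓝 z] fun z => ℓ (inv ψ z)⁻¹ := by
          filter_upwards [hK.isClosed.isOpen_compl.mem_nhds h1] with y hy using hL1 y hy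
        refine ContinuousAt.congr ?_ h2.symm
        obtain ⟨h3, h4⟩ := inv_spec hψ h1
        obtain ⟨h5, h6⟩ := hinvball _ h3
        have h7 : ContinuousAt (fun z => (inv ψ z)⁻¹) z :=
          (inv_cont hψ h1).inv₀ fun h => h6 (by rw [h, inv_zero])
        exact ContinuousAt.comp (g := ℓ) (hℓc.continuousAt (isOpen_ball.mem_nhds h5)) h7
      · have h2 : L =ᶠ[𝓝 z] fun z => Complex.log ((z - p) / (z - q)) := by
          have h3 : {z : ℂ | R < ‖z - p‖} ∈ 𝓝 z :=
            (isOpen_lt continuous_const (by fun_prop)).mem_nhds h1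
          filter_upwards [h3] with y hy using hL2 y hy
        refine ContinuousAt.congr ?_ h2.symm
        obtain ⟨h3, h4⟩ := hquot z (hRq z h1)
        refine ContinuousAt.clog (f := fun z => (z - p) / (z - q)) ?_ h3
        exact (continuousAt_id.sub continuousAt_const).div (continuousAt_id.sub continuousAt_const) h4
    · intro z hz
      rcases (hset z).1 hz with h1 | h1
      · obtain ⟨h3, h4⟩ := inv_spec hψ h1
        rw [hL1 z h1, hℓ _ (hinvball _ h3).1, hgw _ h3, h4]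
      · rw [hL2 z h1, Complex.exp_log (slitPlane_ne_zero (hquot z (hRq z h1)).1)]
  -- the ray through this point
  have hw0 : w ≠ 0 := by
    rintro rfl
    rw [norm_zero] at hw1
    linarith
  obtain ⟨s₂, hs₂⟩ : ∃ s₂, s₂ = Real.log ‖w‖ := ⟨_, rfl⟩
  have hs20 : 0 < s₂ := by rw [hs₂]; exact Real.log_pos hw1
  have hwe : exp (pt s₂ (arg w)) = w := by
    rw [pt, exp_add, hs₂, ← ofReal_exp, Real.exp_log (norm_pos_iff.2 hw0)]
    exact Complex.norm_mul_exp_arg_mul_I w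
  obtain ⟨θ, hθ⟩ : ∃ θ, θ = arg w := ⟨_, rfl⟩
  rw [← hθ] at hwe
  by_cases hex : ∃ s₁, s₂ ≤ s₁ ∧ ‖F ψ (pt s₁ θ) - p‖ ≤ 2 * ‖q - p‖
  · obtain ⟨s₁, h1, h2⟩ := hex
    have hs10 : 0 < s₁ := lt_of_lt_of_le hs20 h1
    refine ⟨θ, s₁, s₂, hs20, h1, ?_, h2.trans_lt hqρ, ?_⟩
    · have h3 := hsmall (exp (pt s₁ θ)) (one_lt_exp (by simpa using hs10)) p hpK (h2.trans_lt hqδ)
      rw [norm_exp, pt_re] at h3
      have h4 := Real.add_one_le_exp s₁
      linarith
    · unfold F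
      rw [hwe]
      exact hwR
  · exfalso
    push Not at hex
    obtain ⟨u, hu⟩ : ∃ u : ℝ → ℂ, u = fun x => (exp (pt x θ))⁻¹ := ⟨_, rfl⟩
    have huc : Continuous u := by
      rw [hu]
      apply Continuous.inv₀
      · unfold pt; fun_prop
      · intro x; exact exp_ne_zero _
    have hub : ∀ x ∈ Ici s₂, u x ∈ ball (0 : ℂ) 1 := by
      intro x hx
      rw [hu]
      exact (hinvball _ (one_lt_exp (by simpa using lt_of_lt_of_le hs20 hx))).1
    have hgx : ∀ x ∈ Ici s₂, g (u x) = (F ψ (pt x θ) - p) / (F ψ (pt x θ) - q) := by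
      intro x hx
      rw [hu]
      exact hgw _ (one_lt_exp (by simpa using lt_of_lt_of_le hs20 hx))
    have hfc : ContinuousOn (fun x => ℓ (u x) - Complex.log (g (u x))) (Ici s₂) := by
      intro x hx
      apply ContinuousAt.continuousWithinAt
      have h1 : ContinuousAt (fun x => ℓ (u x)) x := ContinuousAt.comp (g := ℓ)
        (hℓc.continuousAt (isOpen_ball.mem_nhds (hub x hx))) huc.continuousAt
      have h2 : ContinuousAt (fun x => g (u x)) x := ContinuousAt.comp (g := g)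
        (hgc.continuousAt (isOpen_ball.mem_nhds (hub x hx))) huc.continuousAt
      refine h1.sub (h2.clog ?_)
      rw [hgx x hx]
      exact (hquot _ (hex x hx)).1
    have hf1 : ∀ x ∈ Ici s₂, exp (ℓ (u x) - Complex.log (g (u x))) = 1 := by
      intro x hx
      rw [exp_sub, hℓ _ (hub x hx), Complex.exp_log (hgne _ (hub x hx)),
        div_self (hgne _ (hub x hx))]
    have hconst : ∀ x ∈ Ici s₂, ℓ (u x) - Complex.log (g (u x)) =
        ℓ (u s₂) - Complex.log (g (u s₂)) := fun x hx =>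
      const_of_exp isPreconnected_Ici hfc hf1 hx self_mem_Ici
    have hu0 : Tendsto u atTop (𝓝 0) := by
      rw [hu, tendsto_zero_iff_norm_tendsto_zero]
      have h1 : (fun x : ℝ => ‖(exp (pt x θ))⁻¹‖) = fun x => Real.exp (-x) := by
        funext x
        rw [norm_inv, norm_exp, pt_re, Real.exp_neg]
      rw [h1]
      exact Real.tendsto_exp_neg_atTop_nhds_zero
    have hlim : Tendsto (fun x => ℓ (u x) - Complex.log (g (u x))) atTop (𝓝 0) := by
      have h1 : Tendsto (fun x => ℓ (u x)) atTop (𝓝 (ℓ 0)) :=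
        ((hℓc.continuousAt (isOpen_ball.mem_nhds (mem_ball_self one_pos))).tendsto).comp hu0
      have h2 : Tendsto (fun x => g (u x)) atTop (𝓝 (g 0)) := hgc0.tendsto.comp hu0
      have h3 := h2.clog (by rw [hg0]; exact one_mem_slitPlane)
      have h4 := h1.sub h3
      rw [hℓ0, hg0, Complex.log_one, sub_zero] at h4
      exact h4
    have h0 : ℓ (u s₂) - Complex.log (g (u s₂)) = 0 := by
      refine tendsto_nhds_unique (f := fun _ : ℝ => ℓ (u s₂) - Complex.log (g (u s₂)))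
        tendsto_const_nhds (hlim.congr' ?_)
      filter_upwards [eventually_ge_atTop s₂] with x hx using hconst x hx
    apply hwne
    have h5 : u s₂ = w⁻¹ := by rw [hu]; simp only; rw [hwe]
    rw [h5, hgw w hw1] at h0
    exact sub_eq_zero.1 h0

end Run7.h991.DP
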