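import Pool.Agent.Run7.h991.DP.Late

set_option autoImplicit false

/-! # Almost every circle is crossed where the complement is not too narrow (helper991) -/

open Set Metric Filter Topology Complex MeasureTheory
open scoped ENNReal

namespace Run7.h991.DP

open Pool.Agent.H637R4.PO
open Pool.Agent.R240.Loc (CIK)

variable {K : Set ℂ} {ψ : ℂ → ℂ}

/-- Koebe's theorem with the distance -/
theorem koebe_dist (hψ : Ext K ψ) (hK : K.Nonempty) {s θ : ℝ} (hs0 : 0 < s) (hs1 : s ≤ 1) :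
    s * ‖deriv (F ψ) (pt s θ)‖ ≤ 4 * infDist (F ψ (pt s θ)) K := by
  have h1 : s * ‖deriv (F ψ) (pt s θ)‖ / 4 ≤ infDist (F ψ (pt s θ)) K := by
    rw [le_infDist hK]
    intro v hv
    have h2 := koebe hψ hv hs0 (a := pt s θ) (by simp) hs1
    rw [dist_comm, dist_eq_norm]
    linarith
  linarith

/-- derivative of the norm -/
theorem hasDerivAt_norm' {g : ℝ → ℂ} {g' : ℂ} {x : ℝ} (h : HasDerivAt g g' x) (h0 : g x ≠ 0) :
    ∃ r' : ℝ, HasDerivAt (fun x => ‖g x‖) r' x ∧ |r'| ≤ ‖g'‖ := by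
  have h1 := h.norm_sq
  have hn : 0 < ‖g x‖ := norm_pos_iff.2 h0
  have h2 := h1.sqrt (pow_ne_zero 2 hn.ne')
  have h3 : (fun x => √(‖g x‖ ^ 2)) = fun x => ‖g x‖ := by
    funext y
    exact Real.sqrt_sq (norm_nonneg _)
  rw [h3, Real.sqrt_sq (norm_nonneg _)] at h2
  refine ⟨_, h2, ?_⟩
  rw [abs_div, abs_mul, abs_of_pos (show (0 : ℝ) < 2 by norm_num),
    abs_of_pos (show (0 : ℝ) < 2 * ‖g x‖ by positivity), div_le_iff₀ (by positivity)]
  have h4 := abs_real_inner_le_norm (g x) g'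
  nlinarith

/-- the bad circles for one ray -/
def Bad (K : Set ℂ) (ψ : ℂ → ℂ) (H : ℝ → ℝ) (p : ℂ) (R θ s₁ s₂ : ℝ) : Set ℝ :=
  {u | ‖F ψ (pt s₁ θ) - p‖ < u ∧ u < R ∧ ∀ s ∈ Icc s₂ s₁, ‖F ψ (pt s θ) - p‖ = u →
    infDist (F ψ (pt s θ)) K * H (-Real.log s) < 1}

theorem bad_le (hψ : Ext K ψ) {H : ℝ → ℝ} (hH : Measurable H) (hH0 : ∀ x, 0 < H x)
    {p : ℂ} (hp : p ∈ K) {R θ s₁ s₂ : ℝ} (hs2 : 0 < s₂) (hs : s₂ ≤ s₁) (hs1 : s₁ ≤ 1)
    (hR : R < ‖F ψ (pt s₂ θ) - p‖) :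
    volume (Bad K ψ H p R θ s₁ s₂) ≤ ∫⁻ x in Ici (-Real.log s₁), ENNReal.ofReal (4 / H x) := by
  have hKne : K.Nonempty := ⟨p, hp⟩
  have hs10 : 0 < s₁ := lt_of_lt_of_le hs2 hs
  obtain ⟨g, hg⟩ : ∃ g : ℝ → ℂ, g = fun x => F ψ (pt (Real.exp (-x)) θ) - p := ⟨_, rfl⟩
  have hgd : ∀ x, HasDerivAt g ((-Real.exp (-x) : ℝ) • deriv (F ψ) (pt (Real.exp (-x)) θ)) x := by
    intro x
    rw [hg]
    have h1 : HasDerivAt (fun x : ℝ => Real.exp (-x)) (-Real.exp (-x)) x := by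
      have := (Real.hasDerivAt_exp (-x)).comp x (hasDerivAt_neg x)
      rw [mul_neg_one] at this
      exact this
    have h2 := hasDerivAt_ray hψ (s := Real.exp (-x)) (θ := θ) (Real.exp_pos _)
    exact (h2.scomp x h1).sub_const p
  have hgc : Continuous g := continuous_iff_continuousAt.2 fun x => (hgd x).continuousAt
  have hg0 : ∀ x, g x ≠ 0 := by
    intro x h
    rw [hg] at h
    exact F_notMem hψ (ζ := pt (Real.exp (-x)) θ) (by simp [Real.exp_pos]) (sub_eq_zero.1 h ▸ hp)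
  have hr : ∀ x, ∃ r' : ℝ, HasDerivAt (fun x => ‖g x‖) r' x ∧
      |r'| ≤ ‖(-Real.exp (-x) : ℝ) • deriv (F ψ) (pt (Real.exp (-x)) θ)‖ :=
    fun x => hasDerivAt_norm' (hgd x) (hg0 x)
  choose r' hr1 hr2 using hr
  obtain ⟨E, hE⟩ : ∃ E : Set ℝ, E = Icc (-Real.log s₁) (-Real.log s₂) ∩
      {x | infDist (F ψ (pt (Real.exp (-x)) θ)) K * H x < 1} := ⟨_, rfl⟩
  have hEm : MeasurableSet E := by
    rw [hE]
    apply measurableSet_Icc.inter
    have h1 : Continuous fun x : ℝ => F ψ (pt (Real.exp (-x)) θ) := by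
      have : (fun x : ℝ => F ψ (pt (Real.exp (-x)) θ)) = fun x => g x + p := by
        funext x; rw [hg]; ring
      rw [this]; fun_prop
    have h2 : Measurable fun x : ℝ => infDist (F ψ (pt (Real.exp (-x)) θ)) K * H x :=
      ((continuous_infDist_pt K).comp h1).measurable.mul hH
    exact measurableSet_lt h2 measurable_const
  have hsub : Bad K ψ H p R θ s₁ s₂ ⊆ (fun x => ‖g x‖) '' E := by
    rintro u ⟨hu1, hu2, hu3⟩
    have h1 : ContinuousOn (fun x => ‖g x‖) (Icc (-Real.log s₁) (-Real.log s₂)) :=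
      hgc.norm.continuousOn
    have h2 : -Real.log s₁ ≤ -Real.log s₂ := neg_le_neg (Real.log_le_log hs2 hs)
    have h3 := intermediate_value_Icc h2 h1
    have e1 : g (-Real.log s₁) = F ψ (pt s₁ θ) - p := by
      rw [hg]; simp only; rw [neg_neg, Real.exp_log hs10]
    have e2 : g (-Real.log s₂) = F ψ (pt s₂ θ) - p := by
      rw [hg]; simp only; rw [neg_neg, Real.exp_log hs2]
    obtain ⟨x, hx, hxu⟩ := h3 (show u ∈ Icc ‖g (-Real.log s₁)‖ ‖g (-Real.log s₂)‖ by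
      rw [e1, e2]; exact ⟨hu1.le, (hu2.trans hR).le⟩)
    refine ⟨x, ?_, hxu⟩
    rw [hE]
    refine ⟨hx, ?_⟩
    have h4 : Real.exp (-x) ∈ Icc s₂ s₁ := by
      constructor
      · rw [← Real.log_le_iff_le_exp hs2]; linarith [hx.2]
      · rw [← Real.le_log_iff_exp_le hs10]; linarith [hx.1]
    have h5 := hu3 _ h4 (by rw [← hxu, hg])
    rw [Real.log_exp, neg_neg] at h5
    exact h5
  have h1 := addHaar_image_le_lintegral_abs_det_fderiv (volume : Measure ℝ) hEm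
    (f := fun x => ‖g x‖) (f' := fun x => ContinuousLinearMap.toSpanSingleton ℝ (r' x))
    (fun x _ => (hr1 x).hasFDerivAt.hasFDerivWithinAt)
  refine (measure_mono hsub).trans (h1.trans ?_)
  have h2 : ∀ x ∈ E, ENNReal.ofReal |(ContinuousLinearMap.toSpanSingleton ℝ (r' x)).det| ≤
      ENNReal.ofReal (4 / H x) := by
    intro x hx
    rw [hE] at hx
    rw [ContinuousLinearMap.det_toSpanSingleton]
    apply ENNReal.ofReal_le_ofReal
    refine (hr2 x).trans ?_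
    have h3 : Real.exp (-x) ≤ 1 := by
      have h4 : Real.exp (-x) ≤ s₁ := by
        rw [← Real.le_log_iff_exp_le hs10]; linarith [hx.1.1]
      linarith
    rw [norm_smul, Real.norm_eq_abs, abs_neg, abs_of_pos (Real.exp_pos _)]
    refine (koebe_dist hψ hKne (Real.exp_pos _) h3).trans ?_
    rw [le_div_iff₀ (hH0 x)]
    have h4 : infDist (F ψ (pt (Real.exp (-x)) θ)) K * H x < 1 := hx.2
    nlinarith
  calc ∫⁻ x in E, ENNReal.ofReal |(ContinuousLinearMap.toSpanSingleton ℝ (r' x)).det|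
      ≤ ∫⁻ x in E, ENNReal.ofReal (4 / H x) := setLIntegral_mono' hEm h2
    _ ≤ _ := lintegral_mono_set (by rw [hE]; exact fun x hx => hx.1.1)

/-- the tail of the integral -/
theorem tail {H : ℝ → ℝ} (hH : Measurable H)
    (hI : ∫⁻ x in Ici (0 : ℝ), ENNReal.ofReal (4 / H x) ≠ ⊤) {ε : ℝ≥0∞} (hε : 0 < ε) :
    ∃ x₀ : ℝ, 0 ≤ x₀ ∧ ∫⁻ x in Ici x₀, ENNReal.ofReal (4 / H x) ≤ ε := by
  have hm : Measurable fun x => ENNReal.ofReal (4 / H x) := by fun_prop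
  obtain ⟨ν, hν⟩ : ∃ ν : Measure ℝ, ν = volume.withDensity fun x => ENNReal.ofReal (4 / H x) :=
    ⟨_, rfl⟩
  have hνs : ∀ a, ν (Ici a) = ∫⁻ x in Ici a, ENNReal.ofReal (4 / H x) := by
    intro a
    rw [hν, withDensity_apply _ measurableSet_Ici]
  have h1 : Tendsto (fun n : ℕ => ν (Ici (n : ℝ))) atTop (𝓝 (ν (⋂ n : ℕ, Ici (n : ℝ)))) := by
    apply tendsto_measure_iInter_atTop
    · exact fun n => measurableSet_Ici.nullMeasurableSet
    · exact fun m n h => Ici_subset_Ici.2 (by exact_mod_cast h)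
    · exact ⟨0, by rw [hνs]; simpa using hI⟩
  have h2 : (⋂ n : ℕ, Ici (n : ℝ)) = ∅ := by
    rw [eq_empty_iff_forall_notMem]
    intro x hx
    obtain ⟨n, hn⟩ := exists_nat_gt x
    have := mem_iInter.1 hx n
    rw [mem_Ici] at this
    linarith
  rw [h2, measure_empty] at h1
  obtain ⟨n, hn⟩ := (h1.eventually (gt_mem_nhds hε)).exists
  refine ⟨n, Nat.cast_nonneg n, ?_⟩
  rw [← hνs]
  exact hn.le

/-- **Crossing.** Almost every small circle about a point where `K` is not locally connected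
contains a point `c` of `K` which is approached by points of late rays at distance not too small from
`K`. -/
theorem cross (hψ : Ext K ψ) (hK : IsCompact K) {p : ℂ} (hcik : ¬ CIK K p) :
    ∃ R : ℝ, 0 < R ∧ ∀ H : ℝ → ℝ, Measurable H → (∀ x, 0 < H x) →
      ∫⁻ x in Ici (0 : ℝ), ENNReal.ofReal (4 / H x) ≠ ⊤ →
      ∀ᵐ u : ℝ, 0 < u → u < R → ∃ c ∈ K, dist c p = u ∧ ∀ δ : ℝ, 0 < δ →
        ∃ θ s₁ s s₂ : ℝ, 0 < s₂ ∧ s₂ ≤ s ∧ s ≤ s₁ ∧ s₁ < δ ∧ ‖F ψ (pt s θ) - c‖ < δ ∧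
          1 ≤ infDist (F ψ (pt s θ)) K * H (-Real.log s) ∧ ‖F ψ (pt s₁ θ) - p‖ < δ ∧
          R < ‖F ψ (pt s₂ θ) - p‖ := by
  obtain ⟨R, hR, hlate⟩ := late hψ hK hcik
  have hpK := mem_of_not_cik hK hcik
  refine ⟨R, hR, ?_⟩
  intro H hH hH0 hI
  have h1 : ∀ k : ℕ, ∃ x₀ : ℝ, 0 ≤ x₀ ∧ ∫⁻ x in Ici x₀, ENNReal.ofReal (4 / H x) ≤
      (2⁻¹ : ℝ≥0∞) ^ k := fun k => tail hH hI
    (ENNReal.pow_pos (ENNReal.inv_pos.2 (by norm_num)) k)
  choose x₀ hx0 hx1 using h1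
  have h2 : ∀ k : ℕ, ∃ θ s₁ s₂ : ℝ, 0 < s₂ ∧ s₂ ≤ s₁ ∧
      s₁ < min (Real.exp (-x₀ k)) (1 / ((k : ℝ) + 1)) ∧
      ‖F ψ (pt s₁ θ) - p‖ < min (Real.exp (-x₀ k)) (1 / ((k : ℝ) + 1)) ∧
      R < ‖F ψ (pt s₂ θ) - p‖ := fun k => hlate _ (lt_min (Real.exp_pos _) (by positivity))
  choose θ s₁ s₂ ha hb hc hd he using h2
  have hs10 : ∀ k, 0 < s₁ k := fun k => lt_of_lt_of_le (ha k) (hb k)
  have hbad : ∀ k, volume (Bad K ψ H p R (θ k) (s₁ k) (s₂ k)) ≤ (2⁻¹ : ℝ≥0∞) ^ k := by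
    intro k
    have h3 : s₁ k < Real.exp (-x₀ k) := (hc k).trans_le (min_le_left _ _)
    have h4 : Real.exp (-x₀ k) ≤ 1 := Real.exp_le_one_iff.2 (by linarith [hx0 k])
    refine (bad_le hψ hH hH0 hpK (ha k) (hb k) (by linarith) (he k)).trans ?_
    refine le_trans (lintegral_mono_set (Ici_subset_Ici.2 ?_)) (hx1 k)
    have h5 := (Real.log_lt_iff_lt_exp (hs10 k)).2 h3
    linarith
  have hsum : ∑' k, volume (Bad K ψ H p R (θ k) (s₁ k) (s₂ k)) ≠ ⊤ := by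
    refine ne_top_of_le_ne_top ?_ (ENNReal.tsum_le_tsum hbad)
    rw [ENNReal.tsum_geometric]
    simp
  filter_upwards [ae_eventually_notMem hsum] with u hu hu0 huR
  have hk1 : ∀ᶠ k : ℕ in atTop, (1 / ((k : ℝ) + 1)) < u :=
    tendsto_one_div_add_atTop_nhds_zero_nat.eventually (gt_mem_nhds hu0)
  obtain ⟨k₀, hk₀⟩ := eventually_atTop.1 (hu.and hk1)
  have hex : ∀ k : ℕ, ∃ s ∈ Icc (s₂ (k + k₀)) (s₁ (k + k₀)),
      ‖F ψ (pt s (θ (k + k₀))) - p‖ = u ∧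
      1 ≤ infDist (F ψ (pt s (θ (k + k₀)))) K * H (-Real.log s) := by
    intro k
    obtain ⟨h3, h4⟩ := hk₀ (k + k₀) (by omega)
    by_contra hcon
    push Not at hcon
    apply h3
    refine ⟨?_, huR, fun s hs hsu => hcon s hs hsu⟩
    exact ((hd (k + k₀)).trans_le (min_le_right _ _)).trans h4
  choose s hs hsu hsH using hex
  have hcpt : IsCompact (sphere p u) := isCompact_sphere p u
  obtain ⟨c, hcs, φ, hφ, hlim⟩ := hcpt.tendsto_subseq (x := fun k => F ψ (pt (s k) (θ (k + k₀))))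
    (fun k => by rw [mem_sphere, dist_eq_norm]; exact hsu k)
  have hs0 : ∀ k, 0 < s k := fun k => lt_of_lt_of_le (ha _) (hs k).1
  have hs1lim : Tendsto (fun k => s₁ (φ k + k₀)) atTop (𝓝 0) := by
    have h3 : Tendsto (fun k : ℕ => 1 / (((φ k + k₀ : ℕ) : ℝ) + 1)) atTop (𝓝 0) :=
      tendsto_one_div_add_atTop_nhds_zero_nat.comp
        (tendsto_atTop_mono (fun k => Nat.le_add_right _ _) hφ.tendsto_atTop)
    refine squeeze_zero (fun k => (hs10 _).le) (fun k => ?_) h3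
    exact ((hc (φ k + k₀)).trans_le (min_le_right _ _)).le
  have hslim : Tendsto (fun k => s (φ k)) atTop (𝓝 0) :=
    squeeze_zero (fun k => (hs0 _).le) (fun k => (hs (φ k)).2) hs1lim
  have hdlim : Tendsto (fun k => ‖F ψ (pt (s₁ (φ k + k₀)) (θ (φ k + k₀))) - p‖) atTop (𝓝 0) := by
    have h3 : Tendsto (fun k : ℕ => 1 / (((φ k + k₀ : ℕ) : ℝ) + 1)) atTop (𝓝 0) :=
      tendsto_one_div_add_atTop_nhds_zero_nat.comp
        (tendsto_atTop_mono (fun k => Nat.le_add_right _ _) hφ.tendsto_atTop)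
    refine squeeze_zero (fun k => norm_nonneg _) (fun k => ?_) h3
    exact ((hd (φ k + k₀)).trans_le (min_le_right _ _)).le
  have hcK : c ∈ K := by
    refine mem_of_limit hψ (l := atTop) (w := fun k => exp (pt (s (φ k)) (θ (φ k + k₀)))) ?_ ?_ hlim
    · exact Eventually.of_forall fun k => one_lt_exp (by simpa using hs0 _)
    · have h3 : (fun k => ‖exp (pt (s (φ k)) (θ (φ k + k₀)))‖) = fun k => Real.exp (s (φ k)) := by
        funext k
        rw [norm_exp, pt_re]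
      rw [h3]
      have h4 := (Real.continuous_exp.tendsto 0).comp hslim
      rwa [Real.exp_zero] at h4
  refine ⟨c, hcK, mem_sphere.1 hcs, ?_⟩
  intro δ hδ
  have h3 : Tendsto (fun k => ‖F ψ (pt (s (φ k)) (θ (φ k + k₀))) - c‖) atTop (𝓝 0) := by
    rw [← tendsto_iff_norm_sub_tendsto_zero]
    exact hlim
  obtain ⟨k, hk1, hk2, hk3⟩ := ((hs1lim.eventually (gt_mem_nhds hδ)).and
    ((h3.eventually (gt_mem_nhds hδ)).and (hdlim.eventually (gt_mem_nhds hδ)))).exists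
  exact ⟨θ (φ k + k₀), s₁ (φ k + k₀), s (φ k), s₂ (φ k + k₀), ha _, (hs (φ k)).1, (hs (φ k)).2,
    hk1, hk2, hsH (φ k), hk3, he _⟩

end Run7.h991.DP
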