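import Mathlib
import Pool.Agent.H712R2.LogLift

set_option autoImplicit false

/-! # Continuous logarithms in the plane (helper991) -/

open Set Metric Filter Topology Complex

namespace Run7.h991.DP

/-- continuous logarithm on a star-shaped set -/
theorem exists_log {g : ℂ → ℂ} {A : Set ℂ} (h0 : (0 : ℂ) ∈ A)
    (hA : ∀ x ∈ A, ∀ s : ℝ, s ∈ Icc (0 : ℝ) 1 → (s : ℂ) * x ∈ A)
    (hg : ContinuousOn g A) (hg0 : g 0 = 1) (hne : ∀ x ∈ A, g x ≠ 0) :
    ∃ ℓ : ℂ → ℂ, ContinuousOn ℓ A ∧ (∀ x ∈ A, exp (ℓ x) = g x) ∧ ℓ 0 = 0 := by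
  obtain ⟨h, h1, h2, h3⟩ := Pool.Agent.H712R2.exists_log_star (E := Unit) (A := {q | q.2 ∈ A})
    (T := fun q => g q.2) (fun e x hx s hs => hA x hx s hs)
    (hg.comp continuous_snd.continuousOn fun q hq => hq) (fun _ _ _ => hg0)
    (fun q hq => hne q.2 hq)
  refine ⟨fun x => h ((), x), ?_, fun x hx => h2 ((), x) hx, h3 () 0 h0⟩
  exact h1.comp (Continuous.continuousOn (by fun_prop)) fun x hx => hx

/-- a continuous function with values in `2 π i ℤ` is constant -/
theorem const_of_exp {X : Type*} [TopologicalSpace X] {S : Set X} (hS : IsPreconnected S)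
    {f : X → ℂ} (hf : ContinuousOn f S) (h1 : ∀ x ∈ S, exp (f x) = 1) {x y : X} (hx : x ∈ S)
    (hy : y ∈ S) : f x = f y := by
  have cov := Complex.isCoveringMap_exp
  refine cov.isSeparatedMap.constOn_of_comp cov.isLocalHomeomorph.isLocallyInjective hS hf ?_ hx hy
  intro a ha b hb
  apply Subtype.ext
  simp only
  rw [h1 a ha, h1 b hb]

/-- two points in different pieces of a compact set are separated: there is no logarithm -/
theorem no_log {A B : Set ℂ} (hA : IsCompact A) (hB : IsCompact B) (hAB : Disjoint A B)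
    {p q : ℂ} (hp : p ∈ A) (hq : q ∈ B) {L : ℂ → ℂ} (hL : ContinuousOn L (A ∪ B)ᶜ)
    (hexp : ∀ z ∈ (A ∪ B)ᶜ, exp (L z) = (z - p) / (z - q)) : False := by
  have hpq : p ≠ q := by
    rintro rfl
    exact disjoint_left.1 hAB hp hq
  obtain ⟨δ, hδ, hdis⟩ := hAB.exists_cthickenings hA hB.isClosed
  have hBne : B.Nonempty := ⟨q, hq⟩
  have hXo : IsOpen (A ∪ B)ᶜ := (hA.union hB).isClosed.isOpen_compl
  obtain ⟨χ, hχ⟩ : ∃ χ : ℂ → ℝ, χ = fun z => max 0 (min 1 (2 - 3 * infDist z B / δ)) := ⟨_, rfl⟩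
  have hχc : Continuous χ := by
    rw [hχ]
    have := continuous_infDist_pt B
    fun_prop
  have hχ1 : ∀ z, infDist z B < δ / 3 → χ z = 1 := by
    intro z hz
    rw [hχ]
    have h1 : 3 * infDist z B / δ ≤ 1 := by
      rw [div_le_one hδ]; linarith
    simp only
    rw [min_eq_left (by linarith), max_eq_right zero_le_one]
  have hχ0 : ∀ z, 2 * δ / 3 ≤ infDist z B → χ z = 0 := by
    intro z hz
    rw [hχ]
    have h1 : 2 ≤ 3 * infDist z B / δ := by
      rw [le_div_iff₀ hδ]; linarith
    simp only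
    rw [max_eq_left]
    exact (min_le_right _ _).trans (by linarith)
  classical
  obtain ⟨G, hG⟩ : ∃ G : ℂ → ℂ, G = fun z => if infDist z B < δ / 3 then 1 else
      (z - p) / (z - q) * exp (-((χ z : ℂ) * L z)) := ⟨_, rfl⟩
  -- the three formulas
  have hG1 : ∀ z, infDist z B < δ / 3 → G z = 1 := by
    intro z hz
    rw [hG]
    simp only [hz, if_true]
  have hG2 : ∀ z ∈ (A ∪ B)ᶜ, G z = (z - p) / (z - q) * exp (-((χ z : ℂ) * L z)) := by
    intro z hz
    by_cases h : infDist z B < δ / 3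
    · rw [hG1 z h, hχ1 z h, Complex.ofReal_one, one_mul, exp_neg, hexp z hz]
      have h1 : z - p ≠ 0 := sub_ne_zero.2 fun h2 => hz (Or.inl (h2 ▸ hp))
      have h3 : z - q ≠ 0 := sub_ne_zero.2 fun h2 => hz (Or.inr (h2 ▸ hq))
      field_simp
    · rw [hG]
      simp only [h, if_false]
  have hG3 : ∀ z, 2 * δ / 3 ≤ infDist z B → G z = (z - p) / (z - q) := by
    intro z hz
    have h : ¬ infDist z B < δ / 3 := by linarith
    rw [hG]
    simp only [h, if_false]
    rw [hχ0 z hz]
    simp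
  have hAd : ∀ z ∈ thickening δ A, δ ≤ infDist z B := by
    intro z hz
    by_contra hcon
    push Not at hcon
    have h1 : z ∈ cthickening δ B :=
      thickening_subset_cthickening _ _ ((mem_thickening_iff_infDist_lt hBne).2 hcon)
    exact disjoint_left.1 hdis (thickening_subset_cthickening _ _ hz) h1
  have hpδ : ball p δ ⊆ thickening δ A := ball_subset_thickening hp δ
  -- continuity
  have hGc : Continuous G := by
    rw [continuous_iff_continuousAt]
    intro z
    by_cases h1 : infDist z B < δ / 3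
    · have h2 : G =ᶠ[𝓝 z] fun _ => 1 := by
        have h3 : {z | infDist z B < δ / 3} ∈ 𝓝 z :=
          (isOpen_lt (continuous_infDist_pt B) continuous_const).mem_nhds h1
        filter_upwards [h3] with y hy using hG1 y hy
      exact continuousAt_const.congr h2.symm
    · by_cases h2 : z ∈ thickening δ A
      · have h3 : G =ᶠ[𝓝 z] fun z => (z - p) / (z - q) := by
          filter_upwards [isOpen_thickening.mem_nhds h2] with y hy
          exact hG3 y (by have := hAd y hy; linarith)
        have h4 : z - q ≠ 0 := by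
          intro h4
          have h5 := hAd z h2
          rw [sub_eq_zero.1 h4, infDist_zero_of_mem hq] at h5
          linarith
        refine ContinuousAt.congr ?_ h3.symm
        exact (continuousAt_id.sub continuousAt_const).div (continuousAt_id.sub continuousAt_const) h4
      · have h3 : z ∈ (A ∪ B)ᶜ := by
          rintro (h4 | h4)
          · exact h2 (self_subset_thickening hδ A h4)
          · apply h1
            rw [infDist_zero_of_mem h4]
            positivity
        have h4 : G =ᶠ[𝓝 z] fun z => (z - p) / (z - q) * exp (-((χ z : ℂ) * L z)) := by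
          filter_upwards [hXo.mem_nhds h3] with y hy using hG2 y hy
        refine ContinuousAt.congr ?_ h4.symm
        have h5 : z - q ≠ 0 := sub_ne_zero.2 fun h2 => h3 (Or.inr (h2 ▸ hq))
        have h6 : ContinuousAt L z := hL.continuousAt (hXo.mem_nhds h3)
        have h7 : ContinuousAt (fun z => (χ z : ℂ)) z :=
          (Complex.continuous_ofReal.comp hχc).continuousAt
        exact ((continuousAt_id.sub continuousAt_const).div
          (continuousAt_id.sub continuousAt_const) h5).mul (h7.mul h6).neg.cexp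
  have hGne : ∀ z, z ≠ p → G z ≠ 0 := by
    intro z hz
    by_cases h1 : infDist z B < δ / 3
    · rw [hG1 z h1]; exact one_ne_zero
    · by_cases h2 : z ∈ (A ∪ B)ᶜ
      · rw [hG2 z h2]
        have h5 : z - q ≠ 0 := sub_ne_zero.2 fun h3 => h2 (Or.inr (h3 ▸ hq))
        exact mul_ne_zero (div_ne_zero (sub_ne_zero.2 hz) h5) (exp_ne_zero _)
      · have h3 : z ∈ A := by
          rcases notMem_compl_iff.1 h2 with h4 | h4
          · exact h4
          · exact absurd (by rw [infDist_zero_of_mem h4]; positivity) h1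
        have h4 := hAd z (self_subset_thickening hδ A h3)
        rw [hG3 z (by linarith)]
        have h5 : z - q ≠ 0 := by
          intro h5
          rw [sub_eq_zero.1 h5, infDist_zero_of_mem hq] at h4
          linarith
        exact div_ne_zero (sub_ne_zero.2 hz) h5
  -- near infinity
  obtain ⟨R, hR, hBR⟩ : ∃ R : ℝ, 0 < R ∧ B ⊆ closedBall 0 R := by
    obtain ⟨R, hR⟩ := hB.isBounded.subset_closedBall (0 : ℂ)
    exact ⟨max R 1, lt_max_of_lt_right one_pos, hR.trans (closedBall_subset_closedBall (le_max_left _ _))⟩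
  have hGinf : ∀ z, R + δ ≤ ‖z‖ → G z = (z - p) / (z - q) := by
    intro z hz
    apply hG3
    have h1 : ‖z‖ - R ≤ infDist z B := by
      rw [le_infDist hBne]
      intro y hy
      have h2 := hBR hy
      rw [mem_closedBall, dist_zero_right] at h2
      have h3 := norm_sub_norm_le z y
      rw [dist_eq_norm]
      linarith
    linarith
  have hpq' : 0 < ‖p - q‖ := norm_pos_iff.2 (sub_ne_zero.2 hpq)
  have hinv : ∀ u : ℂ, u ≠ 0 → p + u⁻¹ - q ≠ 0 →
      (p + u⁻¹ - p) / (p + u⁻¹ - q) = (1 + u * (p - q))⁻¹ := by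
    intro u hu h1
    have h2 : 1 + u * (p - q) = u * (p + u⁻¹ - q) := by
      field_simp
      ring
    rw [h2, add_sub_cancel_left, mul_inv, div_eq_mul_inv]
  obtain ⟨g, hg⟩ : ∃ g : ℂ → ℂ, g = fun u => if u = 0 then 1 else G (p + u⁻¹) := ⟨_, rfl⟩
  have hg0 : g 0 = 1 := by rw [hg]; simp
  have hgu : ∀ u, u ≠ 0 → g u = G (p + u⁻¹) := by
    intro u hu
    rw [hg]; simp [hu]
  -- `g` near `0`
  obtain ⟨ε, hε, hε1, hε2⟩ : ∃ ε : ℝ, 0 < ε ∧ ε * (R + δ + ‖p‖) ≤ 1 ∧ ε * ‖p - q‖ ≤ 1 / 2 := by
    have h1 : 0 < R + δ + ‖p‖ := by positivity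
    refine ⟨min (1 / (R + δ + ‖p‖)) (1 / (2 * ‖p - q‖)), by positivity, ?_, ?_⟩
    · calc min (1 / (R + δ + ‖p‖)) (1 / (2 * ‖p - q‖)) * (R + δ + ‖p‖)
          ≤ 1 / (R + δ + ‖p‖) * (R + δ + ‖p‖) := by
            gcongr
            exact min_le_left _ _
        _ = 1 := by field_simp
    · calc min (1 / (R + δ + ‖p‖)) (1 / (2 * ‖p - q‖)) * ‖p - q‖
          ≤ 1 / (2 * ‖p - q‖) * ‖p - q‖ := by
            gcongr
            exact min_le_right _ _
        _ = 1 / 2 := by field_simp
  have hgsmall : ∀ u : ℂ, ‖u‖ < ε → g u = (1 + u * (p - q))⁻¹ := by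
    intro u hu
    by_cases hu0 : u = 0
    · rw [hu0, hg0]; simp
    · have hun : 0 < ‖u‖ := norm_pos_iff.2 hu0
      have h1 : R + δ + ‖p‖ ≤ ‖u⁻¹‖ := by
        rw [norm_inv, le_inv_comm₀ (by positivity) hun, ← one_div, le_div_iff₀ (by positivity)]
        calc ‖u‖ * (R + δ + ‖p‖) ≤ ε * (R + δ + ‖p‖) := by gcongr
          _ ≤ 1 := hε1
      have h2 : R + δ ≤ ‖p + u⁻¹‖ := by
        have h3 : ‖u⁻¹‖ ≤ ‖p + u⁻¹‖ + ‖p‖ := by
          have := norm_sub_le (p + u⁻¹) p
          rwa [add_sub_cancel_left] at this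
        linarith
      rw [hgu u hu0, hGinf _ h2]
      apply hinv u hu0
      intro h3
      have h4 : u * (p + u⁻¹ - q) = 1 + u * (p - q) := by
        field_simp
        ring
      rw [h3, mul_zero] at h4
      have h5 : ‖u * (p - q)‖ = 1 := by
        have : u * (p - q) = -1 := by linear_combination -h4
        rw [this, norm_neg, norm_one]
      rw [norm_mul] at h5
      have h6 : ‖u‖ * ‖p - q‖ ≤ ε * ‖p - q‖ := by gcongr
      linarith
  have hgc : Continuous g := by
    rw [continuous_iff_continuousAt]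
    intro u
    by_cases hu : u = 0
    · subst hu
      have h1 : g =ᶠ[𝓝 0] fun u => (1 + u * (p - q))⁻¹ := by
        filter_upwards [ball_mem_nhds (0 : ℂ) hε] with u hu
        exact hgsmall u (by simpa using hu)
      refine ContinuousAt.congr ?_ h1.symm
      apply ContinuousAt.inv₀ (by fun_prop)
      simp
    · have h1 : g =ᶠ[𝓝 u] fun u => G (p + u⁻¹) := by
        filter_upwards [isOpen_ne.mem_nhds hu] with v hv using hgu v hv
      refine ContinuousAt.congr ?_ h1.symm
      exact hGc.continuousAt.comp (continuousAt_const.add (continuousAt_inv₀ hu))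
  have hgne : ∀ u, g u ≠ 0 := by
    intro u
    by_cases hu : u = 0
    · rw [hu, hg0]; exact one_ne_zero
    · rw [hgu u hu]
      apply hGne
      intro h
      exact hu (inv_eq_zero.1 (by linear_combination h))
  obtain ⟨ℓ, hℓc, hℓ, -⟩ := exists_log (A := univ) (mem_univ _) (fun _ _ _ _ => mem_univ _)
    hgc.continuousOn hg0 (fun x _ => hgne x)
  have hℓc' : Continuous ℓ := continuousOn_univ.1 hℓc
  -- the large circle
  obtain ⟨ρ, hρ, hρ1, hρ2⟩ : ∃ ρ : ℝ, 0 < ρ ∧ 1 < ρ * δ ∧ 2 < ρ * ‖p - q‖ := by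
    refine ⟨max (2 / δ) (3 / ‖p - q‖), by positivity, ?_, ?_⟩
    · calc (1 : ℝ) < 2 / δ * δ := by field_simp; norm_num
        _ ≤ _ := by gcongr; exact le_max_left _ _
    · calc (2 : ℝ) < 3 / ‖p - q‖ * ‖p - q‖ := by field_simp; norm_num
        _ ≤ _ := by gcongr; exact le_max_right _ _
  obtain ⟨u, hu⟩ : ∃ u : ℝ → ℂ, u = fun θ : ℝ => (ρ : ℂ) * exp ((θ : ℂ) * I) := ⟨_, rfl⟩
  have hun : ∀ θ, ‖u θ‖ = ρ := by
    intro θ
    rw [hu]
    simp [Complex.norm_exp_ofReal_mul_I, abs_of_pos hρ]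
  have hu0 : ∀ θ, u θ ≠ 0 := by
    intro θ h
    have := hun θ
    rw [h, norm_zero] at this
    linarith
  have hw : ∀ θ, ‖(u θ * (p - q))⁻¹‖ < 1 / 2 := by
    intro θ
    rw [norm_inv, norm_mul, hun]
    rw [one_div]
    exact inv_strictAnti₀ two_pos hρ2
  have hslit : ∀ θ, 1 + (u θ * (p - q))⁻¹ ∈ slitPlane := by
    intro θ
    apply Complex.mem_slitPlane_of_norm_lt_one
    exact (hw θ).trans (by norm_num)
  have hucont : Continuous u := by
    rw [hu]; fun_prop
  have hfc : Continuous fun θ : ℝ => ℓ (u θ) + θ * I + Complex.log (1 + (u θ * (p - q))⁻¹) +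
      Complex.log (ρ * (p - q)) := by
    have h1 : Continuous fun θ : ℝ => Complex.log (1 + (u θ * (p - q))⁻¹) := by
      rw [continuous_iff_continuousAt]
      intro θ
      refine ContinuousAt.clog (f := fun θ => 1 + (u θ * (p - q))⁻¹) ?_ (hslit θ)
      apply continuousAt_const.add
      apply ContinuousAt.inv₀
      · exact (hucont.continuousAt).mul continuousAt_const
      · exact mul_ne_zero (hu0 θ) (sub_ne_zero.2 hpq)
    have h2 : Continuous fun θ : ℝ => ℓ (u θ) := hℓc'.comp hucont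
    fun_prop
  have hone : ∀ θ : ℝ, exp (ℓ (u θ) + θ * I + Complex.log (1 + (u θ * (p - q))⁻¹) +
      Complex.log (ρ * (p - q))) = 1 := by
    intro θ
    have hρc : (ρ : ℂ) ≠ 0 := by exact_mod_cast hρ.ne'
    have hpqc : p - q ≠ 0 := sub_ne_zero.2 hpq
    rw [exp_add, exp_add, exp_add, hℓ _ (mem_univ _),
      Complex.exp_log (slitPlane_ne_zero (hslit θ)),
      Complex.exp_log (mul_ne_zero hρc hpqc), hgu _ (hu0 θ)]
    have h1 : p + (u θ)⁻¹ ∈ thickening δ A := by
      apply hpδ
      rw [mem_ball, dist_eq_norm, add_sub_cancel_left, norm_inv, hun]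
      rw [inv_lt_comm₀ hρ hδ, ← one_div, div_lt_iff₀ hδ]
      exact hρ1
    have h2 := hAd _ h1
    have h3 : p + (u θ)⁻¹ - q ≠ 0 := by
      intro h3
      rw [sub_eq_zero.1 h3, infDist_zero_of_mem hq] at h2
      linarith
    rw [hG3 _ (by linarith), hinv _ (hu0 θ) h3]
    have h4 : 1 + u θ * (p - q) ≠ 0 := by
      have : 1 + u θ * (p - q) = u θ * (p + (u θ)⁻¹ - q) := by
        have := hu0 θ
        field_simp
        ring
      rw [this]
      exact mul_ne_zero (hu0 θ) h3
    have h5 : exp (θ * I) = u θ / ρ := by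
      rw [hu]
      field_simp
    have h6 := hu0 θ
    rw [h5]
    field_simp
    ring
  have h1 := const_of_exp isPreconnected_univ hfc.continuousOn (fun θ _ => hone θ)
    (mem_univ (0 : ℝ)) (mem_univ (2 * Real.pi))
  have h2 : u (2 * Real.pi) = u 0 := by
    rw [hu]
    simp only [ofReal_mul, ofReal_ofNat, ofReal_zero, zero_mul, exp_zero]
    rw [Complex.exp_two_pi_mul_I]
  simp only [h2] at h1
  have h3 : (2 * Real.pi * I : ℂ) = 0 := by
    push_cast at h1
    linear_combination -h1
  exact Complex.two_pi_I_ne_zero h3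

end Run7.h991.DP
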